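import Pool.Agent.Lib.P901b45.Defs

/-
Part 1: two fixed point free involutions have a common transversal.
Part 2: strongly base orderable matroids: a common splitting of the symmetric
difference of two pairs of bases (Davies and McDiarmid).
-/

namespace Pool.Agent.Lib.P901b45

open Set

section Invol

variable {β : Type*}

lemma conj_pow_aux (σ τ : Equiv.Perm β) (hσ : ∀ x, σ (σ x) = x) (hτ : ∀ x, τ (τ x) = x)
    (k : ℤ) (x : β) : σ (((τ * σ) ^ k) x) = ((τ * σ) ^ (-k)) (σ x) := by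
  have hσσ : σ * σ = 1 := Equiv.ext (fun x => by simpa using hσ x)
  have hττ : τ * τ = 1 := Equiv.ext (fun x => by simpa using hτ x)
  have hσi : σ⁻¹ = σ := inv_eq_of_mul_eq_one_right hσσ
  have hτi : τ⁻¹ = τ := inv_eq_of_mul_eq_one_right hττ
  have h1 : σ * (τ * σ) * σ⁻¹ = (τ * σ)⁻¹ := by
    rw [mul_inv_rev, hσi, hτi]
    calc σ * (τ * σ) * σ = σ * τ * (σ * σ) := by simp only [mul_assoc]
      _ = σ * τ := by rw [hσσ, mul_one]
  have h2 : σ * (τ * σ) ^ k * σ⁻¹ = (τ * σ) ^ (-k) := by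
    rw [← conj_zpow, h1, inv_zpow, zpow_neg]
  have h3 : σ * (τ * σ) ^ k = (τ * σ) ^ (-k) * σ := by
    rw [← h2]; simp only [mul_assoc, inv_mul_cancel, mul_one]
  have := congrArg (fun e : Equiv.Perm β => e x) h3
  simpa [Equiv.Perm.mul_apply] using this

/-- Two fixed point free involutions of a type have a common transversal: the
union of two perfect matchings is bipartite. -/
theorem exists_common_transversal (s t : β → β) (hs : ∀ x, s (s x) = x) (ht : ∀ x, t (t x) = x)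
    (hs' : ∀ x, s x ≠ x) (ht' : ∀ x, t x ≠ x) :
    ∃ D : Set β, ∀ x, (s x ∈ D ↔ x ∉ D) ∧ (t x ∈ D ↔ x ∉ D) := by
  classical
  let σ : Equiv.Perm β := ⟨s, s, hs, hs⟩
  let τ : Equiv.Perm β := ⟨t, t, ht, ht⟩
  have hσ : ∀ x, σ (σ x) = x := hs
  have hτ : ∀ x, τ (τ x) = x := ht
  set π : Equiv.Perm β := τ * σ with hπ
  have hc : ∀ (k : ℤ) (x : β), σ ((π ^ k) x) = (π ^ (-k)) (σ x) := conj_pow_aux σ τ hσ hτ
  have hadd : ∀ (a b : ℤ) (x : β), (π ^ a) ((π ^ b) x) = (π ^ (a + b)) x := by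
    intro a b x
    rw [zpow_add, Equiv.Perm.mul_apply]
  have hτc : ∀ (k : ℤ) (x : β), τ ((π ^ k) x) = (π ^ (1 - k)) (σ x) := by
    intro k x
    have h1 : τ ((π ^ k) x) = π (σ ((π ^ k) x)) := by
      rw [hπ, Equiv.Perm.mul_apply τ σ, hσ]
    rw [h1, hc k x]
    have h2 := hadd 1 (-k) (σ x)
    rw [zpow_one] at h2
    rw [h2]
    congr 2
  have key : ∀ (x : β) (k : ℤ), σ x ≠ (π ^ k) x := by
    intro x k hk
    rcases Int.even_or_odd' k with ⟨m, hm | hm⟩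
    · apply hs' ((π ^ m) x)
      have := hc m x
      rw [hk, hadd] at this
      have e : -m + k = m := by omega
      rw [e] at this
      exact this
    · apply ht' ((π ^ (m + 1)) x)
      have := hτc (m + 1) x
      rw [hk, hadd] at this
      have e : 1 - (m + 1) + k = m + 1 := by omega
      rw [e] at this
      exact this
  let Q := Quotient (Equiv.Perm.SameCycle.setoid π)
  let q : β → Q := fun x => Quotient.mk (Equiv.Perm.SameCycle.setoid π) x
  have hq : ∀ x y, q x = q y ↔ π.SameCycle x y := by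
    intro x y
    exact Quotient.eq (r := Equiv.Perm.SameCycle.setoid π)
  let _ : LinearOrder Q := IsWellOrder.linearOrder (WellOrderingRel (α := Q))
  have hne : ∀ x, q (s x) ≠ q x := by
    intro x h
    rcases (hq _ _).1 h with ⟨k, hk⟩
    apply key x (-k)
    have : (π ^ (-k)) x = (π ^ (-k)) ((π ^ k) (s x)) := by rw [hk]
    rw [this, hadd]
    simp [σ]
  have hts : ∀ x, q (t x) = q (s x) := by
    intro x
    rw [hq]
    refine ⟨-1, ?_⟩
    have h1 : t x = π (s x) := by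
      simp [hπ, Equiv.Perm.mul_apply, σ, τ, hs]
    rw [h1, zpow_neg_one]
    simp
  have hst : ∀ x, q (s (t x)) = q x := by
    intro x
    rw [hq]
    refine ⟨1, ?_⟩
    simp [hπ, Equiv.Perm.mul_apply, σ, τ, hs, ht]
  refine ⟨{x | q x < q (s x)}, fun x => ⟨?_, ?_⟩⟩
  · simp only [mem_ofPred_eq, hs]
    have := hne x
    constructor
    · intro h; exact not_lt.2 h.le
    · intro h; exact lt_of_le_of_ne (not_lt.1 h) this
  · simp only [mem_ofPred_eq, hts, hst]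
    have := hne x
    constructor
    · intro h; exact not_lt.2 h.le
    · intro h; exact lt_of_le_of_ne (not_lt.1 h) this

end Invol

section SBO

variable {α : Type*}

/-- The exchange involution of two bases of a strongly base orderable matroid. -/
theorem exchange_involution {M : Matroid α} (hM : StronglyBaseOrderable M) {P Q : Set α}
    (hP : M.IsBase P) (hQ : M.IsBase Q) :
    ∃ s : α → α, (∀ x ∈ symmDiff P Q, s x ∈ symmDiff P Q ∧ s (s x) = x ∧ s x ≠ x) ∧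
      ∀ G ⊆ symmDiff P Q, (∀ x ∈ symmDiff P Q, (s x ∈ G ↔ x ∉ G)) →
        M.IsBase ((P ∩ Q) ∪ G) := by
  classical
  obtain ⟨φ, hφ, hX⟩ := hM P Q hP hQ
  -- φ fixes the common elements
  have hfix : ∀ x ∈ P ∩ Q, φ x = x := by
    rintro x ⟨hxP, hxQ⟩
    obtain ⟨y, hyP, hyx⟩ := hφ.surjOn hxQ
    by_contra hne
    have hyne : y ≠ x := by rintro rfl; exact hne hyx
    have hb := hX {y} (by simpa using hyP)
    have hsub : (P \ {y}) ∪ φ '' {y} = P \ {y} := by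
      rw [image_singleton, hyx]
      apply union_eq_left.2
      rintro z rfl
      exact ⟨hxP, fun h => hyne h.symm⟩
    rw [hsub] at hb
    have := hb.eq_of_subset_isBase hP sdiff_subset
    rw [← this] at hyP
    exact hyP.2 rfl
  have hinj := hφ.injOn
  have hmap : ∀ x ∈ P \ Q, φ x ∈ Q \ P := by
    rintro x ⟨hxP, hxQ⟩
    refine ⟨hφ.mapsTo hxP, fun h => ?_⟩
    have h1 := hfix (φ x) ⟨h, hφ.mapsTo hxP⟩
    have h2 := hinj h hxP h1
    rw [← h2] at hxQ
    exact hxQ (hφ.mapsTo hxP)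
  have hinvex : ∀ y ∈ Q \ P, ∃ x ∈ P \ Q, φ x = y := by
    rintro y ⟨hyQ, hyP⟩
    obtain ⟨x, hxP, hxy⟩ := hφ.surjOn hyQ
    refine ⟨x, ⟨hxP, fun hxQ => ?_⟩, hxy⟩
    rw [hfix x ⟨hxP, hxQ⟩] at hxy
    exact hyP (hxy ▸ hxP)
  let s : α → α := fun x => if x ∈ P then φ x else
    if h : ∃ z ∈ P \ Q, φ z = x then h.choose else x
  have hsP : ∀ x ∈ P, s x = φ x := fun x hx => by simp [s, hx]
  have hsQ : ∀ x ∈ Q \ P, s x ∈ P \ Q ∧ φ (s x) = x := by
    intro x hx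
    have h := hinvex x hx
    have e : s x = h.choose := by
      simp only [s, if_neg hx.2, dif_pos h]
    rw [e]
    exact h.choose_spec
  refine ⟨s, ?_, ?_⟩
  · intro x hx
    rcases (mem_symmDiff.1 hx) with ⟨h1, h2⟩ | ⟨h1, h2⟩
    · have hm := hmap x ⟨h1, h2⟩
      have hs := hsP x h1
      rw [hs]
      refine ⟨mem_symmDiff.2 (Or.inr hm), ?_, ?_⟩
      · obtain ⟨h3, h4⟩ := hsQ (φ x) hm
        exact hinj h3.1 h1 h4
      · intro h; rw [h] at hm; exact hm.2 h1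
    · obtain ⟨h3, h4⟩ := hsQ x ⟨h1, h2⟩
      refine ⟨mem_symmDiff.2 (Or.inl h3), ?_, ?_⟩
      · rw [hsP _ h3.1]; exact h4
      · intro h; rw [h] at h3; exact h2 h3.1
  · intro G hG ht
    have hb := hX ((P \ Q) \ G) (fun x hx => hx.1.1)
    convert hb using 1
    ext x
    constructor
    · rintro (⟨h1, h2⟩ | h)
      · left; exact ⟨h1, fun h => h.1.2 h2⟩
      · rcases (mem_symmDiff.1 (hG h)) with ⟨h1, h2⟩ | ⟨h1, h2⟩
        · left; exact ⟨h1, fun h' => h'.2 h⟩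
        · right
          obtain ⟨h3, h4⟩ := hsQ x ⟨h1, h2⟩
          refine ⟨s x, ⟨h3, ?_⟩, h4⟩
          intro h5
          exact ((ht x (hG h)).1 h5) h
    · rintro (⟨h1, h2⟩ | ⟨z, ⟨hz, hzG⟩, rfl⟩)
      · by_cases hxQ : x ∈ Q
        · left; exact ⟨h1, hxQ⟩
        · right
          by_contra h
          exact h2 ⟨⟨h1, hxQ⟩, h⟩
      · right
        have hzs : z ∈ symmDiff P Q := mem_symmDiff.2 (Or.inl hz)
        have := (ht z hzs).2 hzG
        rwa [hsP z hz.1] at this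

/-- Davies and McDiarmid: the common symmetric difference of two pairs of bases
of two strongly base orderable matroids splits into two parts each of which
completes the common elements to bases in both matroids. -/
theorem common_split {M₁ M₂ : Matroid α} (h₁ : StronglyBaseOrderable M₁)
    (h₂ : StronglyBaseOrderable M₂) {P₁ Q₁ P₂ Q₂ : Set α}
    (hP₁ : M₁.IsBase P₁) (hQ₁ : M₁.IsBase Q₁) (hP₂ : M₂.IsBase P₂) (hQ₂ : M₂.IsBase Q₂)
    (hD : symmDiff P₁ Q₁ = symmDiff P₂ Q₂) :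
    ∃ G ⊆ symmDiff P₁ Q₁,
      M₁.IsBase ((P₁ ∩ Q₁) ∪ G) ∧ M₁.IsBase ((P₁ ∩ Q₁) ∪ (symmDiff P₁ Q₁ \ G)) ∧
      M₂.IsBase ((P₂ ∩ Q₂) ∪ G) ∧ M₂.IsBase ((P₂ ∩ Q₂) ∪ (symmDiff P₁ Q₁ \ G)) := by
  classical
  obtain ⟨s, hs, hsB⟩ := exchange_involution h₁ hP₁ hQ₁
  obtain ⟨t, ht, htB⟩ := exchange_involution h₂ hP₂ hQ₂
  rw [← hD] at ht htB
  set Δ := symmDiff P₁ Q₁ with hΔ
  let s' : Δ → Δ := fun x => ⟨s x.1, (hs x.1 x.2).1⟩
  let t' : Δ → Δ := fun x => ⟨t x.1, (ht x.1 x.2).1⟩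
  obtain ⟨D, hDD⟩ := exists_common_transversal s' t'
    (fun x => Subtype.ext (hs x.1 x.2).2.1) (fun x => Subtype.ext (ht x.1 x.2).2.1)
    (fun x h => (hs x.1 x.2).2.2 (congrArg Subtype.val h))
    (fun x h => (ht x.1 x.2).2.2 (congrArg Subtype.val h))
  let G : Set α := {x | ∃ h : x ∈ Δ, (⟨x, h⟩ : Δ) ∈ D}
  have hGs : G ⊆ Δ := fun x hx => hx.1
  have hGm : ∀ x (h : x ∈ Δ), x ∈ G ↔ (⟨x, h⟩ : Δ) ∈ D := fun x h =>
    ⟨fun h' => h'.2, fun h' => ⟨h, h'⟩⟩
  have hsG : ∀ x ∈ Δ, (s x ∈ G ↔ x ∉ G) := by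
    intro x hx
    rw [hGm (s x) (hs x hx).1, hGm x hx]
    exact (hDD ⟨x, hx⟩).1
  have htG : ∀ x ∈ Δ, (t x ∈ G ↔ x ∉ G) := by
    intro x hx
    rw [hGm (t x) (ht x hx).1, hGm x hx]
    exact (hDD ⟨x, hx⟩).2
  have hcs : ∀ x ∈ Δ, (s x ∈ Δ \ G ↔ x ∉ Δ \ G) := by
    intro x hx
    have := hsG x hx
    have h1 := (hs x hx).1
    simp only [mem_sdiff, h1, hx, true_and, this]
  have hct : ∀ x ∈ Δ, (t x ∈ Δ \ G ↔ x ∉ Δ \ G) := by
    intro x hx
    have := htG x hx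
    have h1 := (ht x hx).1
    simp only [mem_sdiff, h1, hx, true_and, this]
  exact ⟨G, hGs, hsB G hGs hsG, hsB _ sdiff_subset hcs, htB G hGs htG, htB _ sdiff_subset hct⟩

end SBO

end Pool.Agent.Lib.P901b45
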