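import Pool.Agent.Lib.P901b45.Defs

/-
Rank of finite sets and the matroid union theorem for two matroids (in the
form needed here).
-/

namespace Pool.Agent.Lib.P901b45

open Set

variable {α : Type*}

lemma rk_cast (M : Matroid α) (S : Finset α) : ((rk M S : ℕ) : ℕ∞) = M.eRk (S : Set α) := by
  unfold rk
  apply ENat.coe_toNat
  have h := M.eRk_le_encard (S : Set α)
  intro htop
  rw [htop] at h
  have h2 : (S : Set α).encard ≠ ⊤ := by
    rw [Set.encard_coe_eq_coe_finsetCard]
    exact ENat.coe_ne_top _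
  exact h2 (top_le_iff.1 h)

lemma rk_le_card (M : Matroid α) (S : Finset α) : rk M S ≤ S.card := by
  have h := M.eRk_le_encard (S : Set α)
  rw [← rk_cast, Set.encard_coe_eq_coe_finsetCard] at h
  exact_mod_cast h

lemma rk_mono (M : Matroid α) {S T : Finset α} (h : S ⊆ T) : rk M S ≤ rk M T := by
  have h1 := M.eRk_mono (show (S : Set α) ⊆ (T : Set α) from by exact_mod_cast h)
  rw [← rk_cast, ← rk_cast] at h1
  exact_mod_cast h1

lemma rk_submod [DecidableEq α] (M : Matroid α) (S T : Finset α) :
    rk M (S ∪ T) + rk M (S ∩ T) ≤ rk M S + rk M T := by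
  have h := M.eRk_inter_add_eRk_union_le (S : Set α) (T : Set α)
  rw [← Finset.coe_inter, ← Finset.coe_union, ← rk_cast, ← rk_cast, ← rk_cast, ← rk_cast] at h
  have h' : rk M (S ∩ T) + rk M (S ∪ T) ≤ rk M S + rk M T := by exact_mod_cast h
  omega

lemma indep_iff_rk (M : Matroid α) (S : Finset α) :
    M.Indep (S : Set α) ↔ rk M S = S.card := by
  rw [Matroid.indep_iff_eRk_eq_encard_of_finite S.finite_toSet, ← rk_cast,
    Set.encard_coe_eq_coe_finsetCard]
  exact_mod_cast Iff.rfl

lemma isBase_card [Fintype α] (M : Matroid α) (hE : M.E = Set.univ) {B : Finset α}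
    (hB : M.IsBase (B : Set α)) : B.card = rk M Finset.univ := by
  have h1 := hB.encard_eq_eRank
  have h2 : M.eRank = M.eRk (Finset.univ : Finset α) := by
    rw [Matroid.eRank_def, hE]; simp
  rw [h2, ← rk_cast, Set.encard_coe_eq_coe_finsetCard] at h1
  exact_mod_cast h1

lemma isBase_of_indep_card [Fintype α] (M : Matroid α) (hE : M.E = Set.univ) {I : Finset α}
    (hI : M.Indep (I : Set α)) (hc : rk M Finset.univ ≤ I.card) : M.IsBase (I : Set α) := by
  classical
  obtain ⟨B, hB, hIB⟩ := hI.exists_isBase_superset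
  have hfin : B.Finite := Set.toFinite B
  have hB' : M.IsBase (hfin.toFinset : Set α) := by
    rw [Set.Finite.coe_toFinset]
    exact hB
  have h1 := isBase_card M hE hB'
  have h2 : I ⊆ hfin.toFinset := by
    intro x hx
    rw [Set.Finite.mem_toFinset]
    exact hIB (by exact_mod_cast hx)
  have h3 : I = hfin.toFinset := Finset.eq_of_subset_of_card_le h2 (by omega)
  rw [h3]
  exact hB'

/-- Matroid union for two rank functions, by uncrossing. -/
theorem cov_abstract [DecidableEq α] (r₁ r₂ : Finset α → ℕ)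
    (hc₁ : ∀ S, r₁ S ≤ S.card) (hc₂ : ∀ S, r₂ S ≤ S.card)
    (hs₁ : ∀ S T, r₁ (S ∪ T) + r₁ (S ∩ T) ≤ r₁ S + r₁ T)
    (hs₂ : ∀ S T, r₂ (S ∪ T) + r₂ (S ∩ T) ≤ r₂ S + r₂ T) (R : Finset α) :
    ∀ A B : Finset α, Disjoint A R → Disjoint B R →
      (∀ S ⊆ R, S.card + A.card + B.card ≤ r₁ (A ∪ S) + r₂ (B ∪ S)) →
      ∃ R₁ R₂ : Finset α, Disjoint R₁ R₂ ∧ R₁ ∪ R₂ = R ∧
        r₁ (A ∪ R₁) = (A ∪ R₁).card ∧ r₂ (B ∪ R₂) = (B ∪ R₂).card := by
  induction R using Finset.induction_on with
  | empty =>
    intro A B _ _ h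
    refine ⟨∅, ∅, by simp, by simp, ?_, ?_⟩
    · have := h ∅ (by simp)
      have h1 := hc₁ A
      have h2 := hc₂ B
      simp only [Finset.card_empty, Finset.union_empty] at this ⊢
      omega
    · have := h ∅ (by simp)
      have h1 := hc₁ A
      have h2 := hc₂ B
      simp only [Finset.card_empty, Finset.union_empty] at this ⊢
      omega
  | insert e R heR ih =>
    intro A B hAR hBR h
    have heA : e ∉ A := fun h' => (Finset.disjoint_left.1 hAR h') (by simp)
    have heB : e ∉ B := fun h' => (Finset.disjoint_left.1 hBR h') (by simp)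
    have hAR' : Disjoint A R := Finset.disjoint_of_subset_right (Finset.subset_insert e R) hAR
    have hBR' : Disjoint B R := Finset.disjoint_of_subset_right (Finset.subset_insert e R) hBR
    by_cases h1 : ∀ S ⊆ R, S.card + (insert e A).card + B.card ≤ r₁ (insert e A ∪ S) + r₂ (B ∪ S)
    · obtain ⟨R₁, R₂, hd, hu, hr₁, hr₂⟩ := ih (insert e A) B
        (by rw [Finset.disjoint_insert_left]; exact ⟨heR, hAR'⟩) hBR' h1
      refine ⟨insert e R₁, R₂, ?_, ?_, ?_, hr₂⟩
      · rw [Finset.disjoint_insert_left]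
        refine ⟨fun h' => heR (by rw [← hu]; exact Finset.mem_union_right _ h'), hd⟩
      · rw [Finset.insert_union, hu]
      · have e1 : A ∪ insert e R₁ = insert e A ∪ R₁ := by
          ext x; simp only [Finset.mem_union, Finset.mem_insert]; tauto
        rw [e1]; exact hr₁
    · by_cases h2 : ∀ S ⊆ R, S.card + A.card + (insert e B).card ≤
          r₁ (A ∪ S) + r₂ (insert e B ∪ S)
      · obtain ⟨R₁, R₂, hd, hu, hr₁, hr₂⟩ := ih A (insert e B) hAR'
          (by rw [Finset.disjoint_insert_left]; exact ⟨heR, hBR'⟩) h2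
        refine ⟨R₁, insert e R₂, ?_, ?_, hr₁, ?_⟩
        · rw [Finset.disjoint_insert_right]
          refine ⟨fun h' => heR (by rw [← hu]; exact Finset.mem_union_left _ h'), hd⟩
        · rw [Finset.union_insert, hu]
        · have e1 : B ∪ insert e R₂ = insert e B ∪ R₂ := by
            ext x; simp only [Finset.mem_union, Finset.mem_insert]; tauto
          rw [e1]; exact hr₂
      · exfalso
        push Not at h1 h2
        obtain ⟨S, hS, hS'⟩ := h1
        obtain ⟨T, hT, hT'⟩ := h2
        rw [Finset.card_insert_of_notMem heA] at hS'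
        rw [Finset.card_insert_of_notMem heB] at hT'
        have a1 := hs₁ (insert e A ∪ S) (A ∪ T)
        have a2 := hs₂ (B ∪ S) (insert e B ∪ T)
        have e1 : (insert e A ∪ S) ∪ (A ∪ T) = A ∪ insert e (S ∪ T) := by
          ext x; simp only [Finset.mem_union, Finset.mem_insert]; tauto
        have e2 : (B ∪ S) ∪ (insert e B ∪ T) = B ∪ insert e (S ∪ T) := by
          ext x; simp only [Finset.mem_union, Finset.mem_insert]; tauto
        have heT : e ∉ T := fun h' => heR (hT h')
        have heS : e ∉ S := fun h' => heR (hS h')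
        have e3 : (insert e A ∪ S) ∩ (A ∪ T) = A ∪ (S ∩ T) := by
          ext x
          simp only [Finset.mem_union, Finset.mem_insert, Finset.mem_inter]
          constructor
          · rintro ⟨(rfl | h3) | h3, h4 | h4⟩
            · exact absurd h4 heA
            · exact absurd h4 heT
            · exact Or.inl h3
            · exact Or.inl h3
            · exact Or.inl h4
            · exact Or.inr ⟨h3, h4⟩
          · rintro (h3 | ⟨h3, h4⟩)
            · exact ⟨Or.inl (Or.inr h3), Or.inl h3⟩
            · exact ⟨Or.inr h3, Or.inr h4⟩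
        have e4 : (B ∪ S) ∩ (insert e B ∪ T) = B ∪ (S ∩ T) := by
          ext x
          simp only [Finset.mem_union, Finset.mem_insert, Finset.mem_inter]
          constructor
          · rintro ⟨h3 | h3, (rfl | h4) | h4⟩
            · exact absurd h3 heB
            · exact Or.inl h3
            · exact Or.inl h3
            · exact absurd h3 heS
            · exact Or.inl h4
            · exact Or.inr ⟨h3, h4⟩
          · rintro (h3 | ⟨h3, h4⟩)
            · exact ⟨Or.inl h3, Or.inl (Or.inr h3)⟩
            · exact ⟨Or.inr h3, Or.inr h4⟩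
        rw [e1, e3] at a1
        rw [e2, e4] at a2
        have b1 := h (insert e (S ∪ T)) (Finset.insert_subset_insert e (Finset.union_subset hS hT))
        have b2 := h (S ∩ T) ((Finset.inter_subset_left.trans hS).trans (Finset.subset_insert e R))
        rw [Finset.card_insert_of_notMem (by simp [heS, heT])] at b1
        have b3 := Finset.card_union_add_card_inter S T
        omega

/-- Matroid union for two matroids. -/
theorem cov [DecidableEq α] (M₁ M₂ : Matroid α) (R A B : Finset α) (hA : Disjoint A R)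
    (hB : Disjoint B R)
    (h : ∀ S ⊆ R, S.card + A.card + B.card ≤ rk M₁ (A ∪ S) + rk M₂ (B ∪ S)) :
    ∃ R₁ R₂ : Finset α, Disjoint R₁ R₂ ∧ R₁ ∪ R₂ = R ∧
      M₁.Indep ((A ∪ R₁ : Finset α) : Set α) ∧ M₂.Indep ((B ∪ R₂ : Finset α) : Set α) := by
  obtain ⟨R₁, R₂, h1, h2, h3, h4⟩ := cov_abstract (rk M₁) (rk M₂) (rk_le_card M₁) (rk_le_card M₂)
    (rk_submod M₁) (rk_submod M₂) R A B hA hB h
  exact ⟨R₁, R₂, h1, h2, (indep_iff_rk _ _).2 h3, (indep_iff_rk _ _).2 h4⟩

end Pool.Agent.Lib.P901b45
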