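import Pool.Agent.Lib.P901b45.Split
import Pool.Agent.Lib.P901b45.Union

/-
Integral vectors of the polymatroid of the sum of two matroid rank functions,
their decompositions into independent sets, and the mixing of two
decompositions.
-/

namespace Pool.Agent.Lib.P901b45

open Set

variable {α : Type*}

/-- Indicator of a set. -/
noncomputable def ind (X : Set α) (e : α) : ℕ := by
  classical
  exact if e ∈ X then 1 else 0

lemma ind_pos {X : Set α} {e : α} (h : e ∈ X) : ind X e = 1 := by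
  simp [ind, h]

lemma ind_neg {X : Set α} {e : α} (h : e ∉ X) : ind X e = 0 := by
  simp [ind, h]

lemma ind_cases (X : Set α) (e : α) : (e ∈ X ∧ ind X e = 1) ∨ (e ∉ X ∧ ind X e = 0) := by
  by_cases h : e ∈ X
  · exact Or.inl ⟨h, ind_pos h⟩
  · exact Or.inr ⟨h, ind_neg h⟩

/-- The vector `u` satisfies the rank inequalities. -/
def IntIn (M₁ M₂ : Matroid α) (u : α → ℕ) : Prop :=
  ∀ S : Finset α, ∑ e ∈ S, u e ≤ rankSum M₁ M₂ S

/-- `u` is the sum of the indicators of an independent set of `M₁` and an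
independent set of `M₂`. -/
def Dec (M₁ M₂ : Matroid α) (u : α → ℕ) (X₁ X₂ : Set α) : Prop :=
  M₁.Indep X₁ ∧ M₂.Indep X₂ ∧ ∀ e, u e = ind X₁ e + ind X₂ e

lemma sum_ind_le {M : Matroid α} {X : Set α} (hX : M.Indep X) (S : Finset α) :
    ∑ e ∈ S, ind X e ≤ rk M S := by
  classical
  have h1 : ∑ e ∈ S, ind X e = (S.filter (fun e => e ∈ X)).card := by
    rw [Finset.card_filter]
    apply Finset.sum_congr rfl
    intro e _
    simp [ind]
  rw [h1]
  have h2 : M.Indep ((S.filter (fun e => e ∈ X) : Finset α) : Set α) := by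
    apply hX.subset
    intro e he
    have := Finset.mem_coe.1 he
    exact (Finset.mem_filter.1 this).2
  rw [indep_iff_rk] at h2
  rw [← h2]
  exact rk_mono M (Finset.filter_subset _ _)

lemma Dec.intIn {M₁ M₂ : Matroid α} {u : α → ℕ} {X₁ X₂ : Set α} (h : Dec M₁ M₂ u X₁ X₂) :
    IntIn M₁ M₂ u := by
  intro S
  have h1 := sum_ind_le h.1 S
  have h2 := sum_ind_le h.2.1 S
  have h3 : ∑ e ∈ S, u e = ∑ e ∈ S, ind X₁ e + ∑ e ∈ S, ind X₂ e := by
    rw [← Finset.sum_add_distrib]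
    exact Finset.sum_congr rfl (fun e _ => h.2.2 e)
  unfold rankSum
  omega

lemma Dec.le_two {M₁ M₂ : Matroid α} {u : α → ℕ} {X₁ X₂ : Set α} (h : Dec M₁ M₂ u X₁ X₂)
    (e : α) : u e ≤ 2 := by
  have := h.2.2 e
  rcases ind_cases X₁ e with h1 | h1 <;> rcases ind_cases X₂ e with h2 | h2 <;> omega

/-- Every integral vector of the polymatroid decomposes. -/
theorem exists_dec [Fintype α] {M₁ M₂ : Matroid α} {u : α → ℕ}
    (h2 : ∀ e, u e ≤ 2) (h : IntIn M₁ M₂ u) : ∃ X₁ X₂ : Set α, Dec M₁ M₂ u X₁ X₂ := by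
  classical
  let A : Finset α := Finset.univ.filter (fun e => u e = 2)
  let R : Finset α := Finset.univ.filter (fun e => u e = 1)
  have hA : ∀ e, e ∈ A ↔ u e = 2 := fun e => by simp [A]
  have hR : ∀ e, e ∈ R ↔ u e = 1 := fun e => by simp [R]
  have hAR : Disjoint A R := by
    rw [Finset.disjoint_left]
    intro e h1 h3
    rw [hA] at h1
    rw [hR] at h3
    omega
  obtain ⟨R₁, R₂, hd, hu, hi1, hi2⟩ := cov M₁ M₂ R A A hAR hAR (by
    intro S hS
    have h3 := h (A ∪ S)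
    have h4 : Disjoint A S := Finset.disjoint_of_subset_right hS hAR
    rw [Finset.sum_union h4] at h3
    have h5 : ∑ e ∈ A, u e = 2 * A.card := by
      rw [Finset.sum_congr rfl (fun e he => (hA e).1 he), Finset.sum_const, smul_eq_mul]
      omega
    have h6 : ∑ e ∈ S, u e = S.card := by
      rw [Finset.sum_congr rfl (fun e he => (hR e).1 (hS he)), Finset.sum_const, smul_eq_mul]
      omega
    unfold rankSum at h3
    omega)
  refine ⟨_, _, hi1, hi2, ?_⟩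
  intro e
  have e1 : (e ∈ ((A ∪ R₁ : Finset α) : Set α)) ↔ (u e = 2 ∨ e ∈ R₁) := by
    rw [Finset.mem_coe, Finset.mem_union, hA]
  have e2 : (e ∈ ((A ∪ R₂ : Finset α) : Set α)) ↔ (u e = 2 ∨ e ∈ R₂) := by
    rw [Finset.mem_coe, Finset.mem_union, hA]
  have e3 : u e = 1 ↔ (e ∈ R₁ ∨ e ∈ R₂) := by
    rw [← hR, ← hu, Finset.mem_union]
  have e4 : ¬ (e ∈ R₁ ∧ e ∈ R₂) := fun h' => Finset.disjoint_left.1 hd h'.1 h'.2
  have e5 := h2 e
  rcases ind_cases ((A ∪ R₁ : Finset α) : Set α) e with ⟨h1, h1'⟩ | ⟨h1, h1'⟩ <;>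
    rcases ind_cases ((A ∪ R₂ : Finset α) : Set α) e with ⟨h3, h3'⟩ | ⟨h3, h3'⟩ <;>
    rw [h1', h3'] <;> rw [e1] at h1 <;> rw [e2] at h3
  · by_contra hne
    rcases h1 with h1 | h1
    · exact hne h1
    · rcases h3 with h3 | h3
      · exact hne h3
      · exact e4 ⟨h1, h3⟩
  · rcases h1 with h1 | h1
    · exact absurd (Or.inl h1) h3
    · exact e3.2 (Or.inl h1)
  · rcases h3 with h3 | h3
    · exact absurd (Or.inl h3) h1
    · exact e3.2 (Or.inr h3)
  · have h6 : u e ≠ 2 := fun h' => h1 (Or.inl h')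
    have h7 : u e ≠ 1 := by
      intro h'
      rcases e3.1 h' with h8 | h8
      · exact h1 (Or.inr h8)
      · exact h3 (Or.inr h8)
    omega

/-- Mixing two decompositions whose total is even at every element. -/
theorem mix {M₁ M₂ : Matroid α} (h₁ : StronglyBaseOrderable M₁) (h₂ : StronglyBaseOrderable M₂)
    {c d : α → ℕ} {P₁ P₂ Q₁ Q₂ : Set α} (hP : Dec M₁ M₂ c P₁ P₂) (hQ : Dec M₁ M₂ d Q₁ Q₂)
    (hpar : ∀ e, Even (c e + d e)) :
    ∃ G ⊆ symmDiff P₁ Q₁, symmDiff P₁ Q₁ = symmDiff P₂ Q₂ ∧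
      M₁.Indep ((P₁ ∩ Q₁) ∪ G) ∧ M₁.Indep ((P₁ ∩ Q₁) ∪ (symmDiff P₁ Q₁ \ G)) ∧
      M₂.Indep ((P₂ ∩ Q₂) ∪ G) ∧ M₂.Indep ((P₂ ∩ Q₂) ∪ (symmDiff P₁ Q₁ \ G)) := by
  have hD : symmDiff P₁ Q₁ = symmDiff P₂ Q₂ := by
    ext e
    rw [mem_symmDiff, mem_symmDiff]
    have a1 := hP.2.2 e
    have a2 := hQ.2.2 e
    obtain ⟨k, hk⟩ := hpar e
    rcases ind_cases P₁ e with ⟨h1, h1'⟩ | ⟨h1, h1'⟩ <;>
      rcases ind_cases P₂ e with ⟨h2, h2'⟩ | ⟨h2, h2'⟩ <;>
      rcases ind_cases Q₁ e with ⟨h3, h3'⟩ | ⟨h3, h3'⟩ <;>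
      rcases ind_cases Q₂ e with ⟨h4, h4'⟩ | ⟨h4, h4'⟩ <;>
      simp only [h1, h2, h3, h4, true_and, not_true_eq_false, not_false_eq_true, and_true,
        or_false, false_or, and_false, false_and, or_self] <;> omega
  obtain ⟨G, hG, a, b, c, d⟩ := indep_split h₁ h₂ hP.1 hQ.1 hP.2.1 hQ.2.1 hD
  exact ⟨G, hG, hD, a, b, c, d⟩

end Pool.Agent.Lib.P901b45
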