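import Mathlib

/-
Definitions for the sub-case of Frank's question on complementary vertices of
integer 2-polymatroids in which the rank function is the sum of the rank
functions of two strongly base orderable matroids.
-/

namespace Pool.Agent.Lib.P901b45

open Set

variable {α : Type*}

/-- A matroid is strongly base orderable if any two bases `B`, `B'` admit a
bijection `φ` from `B` to `B'` such that replacing any part `X` of `B` by its
image under `φ` gives a base. -/
def StronglyBaseOrderable (M : Matroid α) : Prop :=
  ∀ B B' : Set α, M.IsBase B → M.IsBase B' →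
    ∃ φ : α → α, Set.BijOn φ B B' ∧ ∀ X : Set α, X ⊆ B → M.IsBase ((B \ X) ∪ φ '' X)

/-- The rank of a finite set in a matroid, as a natural number. -/
noncomputable def rk (M : Matroid α) (S : Finset α) : ℕ := (M.eRk (S : Set α)).toNat

/-- The sum of the rank functions of two matroids. -/
noncomputable def rankSum (M₁ M₂ : Matroid α) (S : Finset α) : ℕ := rk M₁ S + rk M₂ S

/-- The polytope `P(f)` of a set function `f`: nonnegative vectors `x` with
`x(S) ≤ f(S)` for all `S`. -/
def Poly (f : Finset α → ℕ) : Set (α → ℝ) :=
  {x | (∀ e, 0 ≤ x e) ∧ ∀ S : Finset α, ∑ e ∈ S, x e ≤ (f S : ℝ)}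

end Pool.Agent.Lib.P901b45
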