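import Pool.Agent.Lib.P901b45.Dec

/-
The pairs (u, 2 - u) of integral vectors of the polymatroid with the fewest odd
entries consist of vertices.
-/

namespace Pool.Agent.Lib.P901b45

open Set

variable {α : Type*} [Fintype α]

/-- `u` and `2 - u` are integral vectors of the polymatroid. -/
def Good (M₁ M₂ : Matroid α) (u : α → ℕ) : Prop :=
  (∀ e, u e ≤ 2) ∧ IntIn M₁ M₂ u ∧ IntIn M₁ M₂ (fun e => 2 - u e)

/-- The number of entries equal to one. -/
def odd [DecidableEq α] (u : α → ℕ) : ℕ := (Finset.univ.filter (fun e => u e = 1)).card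

/-- Good vectors with the fewest entries equal to one. -/
def Opt [DecidableEq α] (M₁ M₂ : Matroid α) (u : α → ℕ) : Prop :=
  Good M₁ M₂ u ∧ ∀ u', Good M₁ M₂ u' → odd u ≤ odd u'

variable [DecidableEq α] {M₁ M₂ : Matroid α}

lemma sub_sub_two {u : α → ℕ} (h : ∀ e, u e ≤ 2) : (fun e => 2 - (2 - u e)) = u := by
  funext e
  have := h e
  omega

lemma Good.compl {u : α → ℕ} (h : Good M₁ M₂ u) : Good M₁ M₂ (fun e => 2 - u e) := by
  refine ⟨fun e => Nat.sub_le _ _, h.2.2, ?_⟩
  rw [sub_sub_two h.1]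
  exact h.2.1

lemma odd_compl {u : α → ℕ} (h : ∀ e, u e ≤ 2) : odd (fun e => 2 - u e) = odd u := by
  unfold odd
  congr 1
  ext e
  simp only [Finset.mem_filter, Finset.mem_univ, true_and]
  have := h e
  omega

lemma Opt.compl {u : α → ℕ} (h : Opt M₁ M₂ u) : Opt M₁ M₂ (fun e => 2 - u e) := by
  refine ⟨h.1.compl, fun u' hu' => ?_⟩
  rw [odd_compl h.1.1]
  exact h.2 u' hu'

lemma rank_le_two (M₁ M₂ : Matroid α) (e : α) : rankSum M₁ M₂ {e} ≤ 2 := by
  have h1 := rk_le_card M₁ {e}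
  have h2 := rk_le_card M₂ {e}
  rw [Finset.card_singleton] at h1 h2
  unfold rankSum
  omega

omit [Fintype α] [DecidableEq α] in
lemma ind_right (X : Set α) {Y : Set α} {e : α} (h : e ∈ Y) : ind (X ∪ Y) e = 1 :=
  ind_pos (Or.inr h)

/-- In an optimal pair every element of value one is used in the same matroid
by both vectors. -/
theorem Opt.same (h₁ : StronglyBaseOrderable M₁) (h₂ : StronglyBaseOrderable M₂)
    {u : α → ℕ} (hu : Opt M₁ M₂ u) {A₁ A₂ B₁ B₂ : Set α} (hA : Dec M₁ M₂ u A₁ A₂)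
    (hB : Dec M₁ M₂ (fun e => 2 - u e) B₁ B₂) {e : α} (he : u e = 1) : e ∈ A₁ ↔ e ∈ B₁ := by
  classical
  obtain ⟨G, hG, hD, i1, i2, i3, i4⟩ := mix h₁ h₂ hA hB (by
    intro e
    have := hu.1.1 e
    have h : u e + (2 - u e) = 2 := by omega
    rw [h]
    exact even_two)
  set Δ := symmDiff A₁ B₁ with hΔ
  let u' : α → ℕ := fun e => ind ((A₁ ∩ B₁) ∪ G) e + ind ((A₂ ∩ B₂) ∪ G) e
  have hA' : Dec M₁ M₂ u' ((A₁ ∩ B₁) ∪ G) ((A₂ ∩ B₂) ∪ G) := ⟨i1, i3, fun _ => rfl⟩
  have hmem1 : ∀ e, e ∈ Δ ↔ ((e ∈ A₁ ∧ e ∉ B₁) ∨ (e ∈ B₁ ∧ e ∉ A₁)) := fun e => mem_symmDiff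
  have hmem2 : ∀ e, e ∈ Δ ↔ ((e ∈ A₂ ∧ e ∉ B₂) ∨ (e ∈ B₂ ∧ e ∉ A₂)) := by
    intro e
    rw [hD]
    exact mem_symmDiff
  -- pointwise description
  have hpt : ∀ e, (e ∈ Δ ∧ e ∈ G ∧ u' e = 2 ∧ ind ((A₁ ∩ B₁) ∪ (Δ \ G)) e = 0 ∧
        ind ((A₂ ∩ B₂) ∪ (Δ \ G)) e = 0) ∨
      (e ∈ Δ ∧ u' e = 0 ∧ ind ((A₁ ∩ B₁) ∪ (Δ \ G)) e = 1 ∧
        ind ((A₂ ∩ B₂) ∪ (Δ \ G)) e = 1) ∨
      (e ∉ Δ ∧ u' e = 1 ∧ u e = 1 ∧
        ind ((A₁ ∩ B₁) ∪ (Δ \ G)) e + ind ((A₂ ∩ B₂) ∪ (Δ \ G)) e = 1) := by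
    intro e
    by_cases hed : e ∈ Δ
    · have n1 : e ∉ A₁ ∩ B₁ := by
        rintro ⟨h1, h2⟩
        rcases (hmem1 e).1 hed with h | h
        · exact h.2 h2
        · exact h.2 h1
      have n2 : e ∉ A₂ ∩ B₂ := by
        rintro ⟨h1, h2⟩
        rcases (hmem2 e).1 hed with h | h
        · exact h.2 h2
        · exact h.2 h1
      by_cases heg : e ∈ G
      · left
        refine ⟨hed, heg, ?_, ?_, ?_⟩
        · show ind _ e + ind _ e = 2
          rw [ind_right _ heg, ind_right _ heg]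
        · apply ind_neg
          rintro (h | h)
          · exact n1 h
          · exact h.2 heg
        · apply ind_neg
          rintro (h | h)
          · exact n2 h
          · exact h.2 heg
      · right; left
        refine ⟨hed, ?_, ?_, ?_⟩
        · show ind _ e + ind _ e = 0
          rw [ind_neg, ind_neg]
          · rintro (h | h)
            · exact n2 h
            · exact heg h
          · rintro (h | h)
            · exact n1 h
            · exact heg h
        · exact ind_right _ ⟨hed, heg⟩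
        · exact ind_right _ ⟨hed, heg⟩
    · right; right
      have heg : e ∉ G := fun h => hed (hG h)
      have c1 : (e ∈ A₁ ↔ e ∈ B₁) := by
        have := hmem1 e
        tauto
      have c2 : (e ∈ A₂ ↔ e ∈ B₂) := by
        have := hmem2 e
        tauto
      have a1 := hA.2.2 e
      have a2 : 2 - u e = ind B₁ e + ind B₂ e := hB.2.2 e
      have a3 := hu.1.1 e
      have m1 : ∀ X : Set α, (e ∈ X → e ∈ Δ) → (e ∈ (A₁ ∩ B₁) ∪ X ↔ e ∈ A₁) := by
        intro X hX
        constructor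
        · rintro (h | h)
          · exact h.1
          · exact absurd (hX h) hed
        · intro h
          exact Or.inl ⟨h, c1.1 h⟩
      have m2 : ∀ X : Set α, (e ∈ X → e ∈ Δ) → (e ∈ (A₂ ∩ B₂) ∪ X ↔ e ∈ A₂) := by
        intro X hX
        constructor
        · rintro (h | h)
          · exact h.1
          · exact absurd (hX h) hed
        · intro h
          exact Or.inl ⟨h, c2.1 h⟩
      have q1 : ∀ X : Set α, (e ∈ X → e ∈ Δ) → ind ((A₁ ∩ B₁) ∪ X) e = ind A₁ e := by
        intro X hX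
        unfold ind
        simp only [m1 X hX]
      have q2 : ∀ X : Set α, (e ∈ X → e ∈ Δ) → ind ((A₂ ∩ B₂) ∪ X) e = ind A₂ e := by
        intro X hX
        unfold ind
        simp only [m2 X hX]
      have q3 : ind B₁ e = ind A₁ e := by
        unfold ind
        simp only [c1]
      have q4 : ind B₂ e = ind A₂ e := by
        unfold ind
        simp only [c2]
      have q5 : u' e = ind A₁ e + ind A₂ e := by
        show ind _ e + ind _ e = _
        rw [q1 G (fun h => hG h), q2 G (fun h => hG h)]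
      rw [q1 (Δ \ G) (fun h => h.1), q2 (Δ \ G) (fun h => h.1), q5]
      rw [q3, q4] at a2
      refine ⟨hed, ?_, ?_, ?_⟩ <;> omega
  have hB' : Dec M₁ M₂ (fun e => 2 - u' e) ((A₁ ∩ B₁) ∪ (Δ \ G)) ((A₂ ∩ B₂) ∪ (Δ \ G)) := by
    refine ⟨i2, i4, fun e => ?_⟩
    show 2 - u' e = _
    rcases hpt e with h | h | h <;> omega
  have hgood : Good M₁ M₂ u' := ⟨hA'.le_two, hA'.intIn, hB'.intIn⟩
  have hle := hu.2 u' hgood
  have hsub : (Finset.univ.filter (fun e => u' e = 1)) ⊆
      (Finset.univ.filter (fun e => u e = 1)) := by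
    intro x hx
    simp only [Finset.mem_filter, Finset.mem_univ, true_and] at hx ⊢
    rcases hpt x with h | h | h <;> omega
  have heq := Finset.eq_of_subset_of_card_le hsub hle
  have he' : u' e = 1 := by
    have : e ∈ (Finset.univ.filter (fun e => u e = 1)) := by simp [he]
    rw [← heq] at this
    simpa using this
  have hed : e ∉ Δ := by
    rcases hpt e with h | h | h
    · omega
    · omega
    · exact h.1
  have := hmem1 e
  tauto

/-- Raising an entry of an integral vector. -/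
lemma IntIn.raise {u : α → ℕ} (hu : IntIn M₁ M₂ u) {a : α}
    (h : ∀ T : Finset α, a ∈ T → ∑ e ∈ T, u e ≠ rankSum M₁ M₂ T) :
    IntIn M₁ M₂ (Function.update u a (u a + 1)) := by
  intro S
  by_cases haS : a ∈ S
  · rw [Finset.sum_update_of_mem haS]
    have h1 := hu S
    have h2 := h S haS
    have h3 := Finset.sum_sdiff (f := u) (Finset.singleton_subset_iff.2 haS)
    rw [Finset.sum_singleton] at h3
    omega
  · rw [Finset.sum_update_of_notMem haS]
    exact hu S

/-- Lowering entries keeps a vector in the polymatroid. -/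
lemma IntIn.mono {u v : α → ℕ} (hu : IntIn M₁ M₂ u) (h : ∀ e, v e ≤ u e) : IntIn M₁ M₂ v :=
  fun S => (Finset.sum_le_sum (fun e _ => h e)).trans (hu S)

/-- Every element of positive value lies in a tight set. -/
theorem Opt.saturated {u : α → ℕ} (hu : Opt M₁ M₂ u) {a : α} (ha : u a ≠ 0) :
    ∃ T : Finset α, a ∈ T ∧ ∑ e ∈ T, u e = rankSum M₁ M₂ T := by
  have h2 := hu.1.1 a
  by_cases h : u a = 2
  · refine ⟨{a}, Finset.mem_singleton_self a, ?_⟩
    have h3 := hu.1.2.1 {a}
    have h4 := rank_le_two M₁ M₂ a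
    rw [Finset.sum_singleton] at h3 ⊢
    omega
  · by_contra hno
    push Not at hno
    have h1 : u a = 1 := by omega
    have hI := hu.1.2.1.raise (a := a) (fun T hT => hno T hT)
    rw [h1] at hI
    have hgood : Good M₁ M₂ (Function.update u a (1 + 1)) := by
      refine ⟨?_, hI, ?_⟩
      · intro e
        by_cases hea : e = a
        · subst hea; simp
        · rw [Function.update_of_ne hea]; exact hu.1.1 e
      · apply hu.1.2.2.mono
        intro e
        by_cases hea : e = a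
        · subst hea; simp
        · rw [Function.update_of_ne hea]
    have hle := hu.2 _ hgood
    have hlt : odd (Function.update u a (1 + 1)) < odd u := by
      unfold odd
      apply Finset.card_lt_card
      rw [Finset.ssubset_iff_of_subset]
      · refine ⟨a, by simp [h1], by simp⟩
      · intro e he
        simp only [Finset.mem_filter, Finset.mem_univ, true_and] at he ⊢
        by_cases hea : e = a
        · subst hea; exact h1
        · rwa [Function.update_of_ne hea] at he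
    omega

/-- Tight sets are closed under intersection. -/
lemma tight_inter {u : α → ℕ} (hu : IntIn M₁ M₂ u) {S T : Finset α}
    (hS : ∑ e ∈ S, u e = rankSum M₁ M₂ S) (hT : ∑ e ∈ T, u e = rankSum M₁ M₂ T) :
    ∑ e ∈ S ∩ T, u e = rankSum M₁ M₂ (S ∩ T) := by
  have h1 := hu (S ∪ T)
  have h2 := hu (S ∩ T)
  have h3 := Finset.sum_union_inter (s₁ := S) (s₂ := T) (f := u)
  have h4 := rk_submod M₁ S T
  have h5 := rk_submod M₂ S T
  unfold rankSum at *
  omega

/-- Moving one unit from `b` to `a` when every tight set containing `a`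
contains `b`. -/
lemma IntIn.move {u : α → ℕ} (hu : IntIn M₁ M₂ u) {a b : α} (hab : a ≠ b) (ha : u a = 1)
    (hb : u b = 1)
    (h : ∀ T : Finset α, a ∈ T → ∑ e ∈ T, u e = rankSum M₁ M₂ T → b ∈ T) :
    IntIn M₁ M₂ (fun e => if e = a then 2 else if e = b then 0 else u e) := by
  intro S
  show ∑ e ∈ S, (if e = a then 2 else if e = b then 0 else u e) ≤ rankSum M₁ M₂ S
  have hsum : ∑ e ∈ S, (if e = a then 2 else if e = b then 0 else u e) +
      (if b ∈ S then 1 else 0) = ∑ e ∈ S, u e + (if a ∈ S then 1 else 0) := by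
    have e1 : (if b ∈ S then 1 else 0) = ∑ e ∈ S, (if e = b then 1 else 0) := by
      rw [Finset.sum_ite_eq']
    have e2 : (if a ∈ S then 1 else 0) = ∑ e ∈ S, (if e = a then 1 else 0) := by
      rw [Finset.sum_ite_eq']
    rw [e1, e2, ← Finset.sum_add_distrib, ← Finset.sum_add_distrib]
    apply Finset.sum_congr rfl
    intro e _
    by_cases hea : e = a
    · subst hea
      simp [hab, ha]
    · by_cases heb : e = b
      · subst heb
        simp [hea, hb]
      · simp [hea, heb]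
  have h1 := hu S
  by_cases haS : a ∈ S
  · by_cases hbS : b ∈ S
    · rw [if_pos haS, if_pos hbS] at hsum
      omega
    · rw [if_pos haS, if_neg hbS] at hsum
      have h2 : ∑ e ∈ S, u e ≠ rankSum M₁ M₂ S := fun h' => hbS (h S haS h')
      omega
  · rw [if_neg haS] at hsum
    omega

/-- Optimal vectors are vertices. -/
theorem Opt.extreme (h₁ : StronglyBaseOrderable M₁) (h₂ : StronglyBaseOrderable M₂)
    {u : α → ℕ} (hu : Opt M₁ M₂ u) :
    (fun e => (u e : ℝ)) ∈ Set.extremePoints ℝ (Poly (rankSum M₁ M₂)) := by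
  classical
  have hmem : (fun e => (u e : ℝ)) ∈ Poly (rankSum M₁ M₂) := by
    refine ⟨fun e => by positivity, fun S => ?_⟩
    have := hu.1.2.1 S
    show ∑ e ∈ S, (u e : ℝ) ≤ _
    exact_mod_cast this
  rw [mem_extremePoints_iff_left]
  refine ⟨hmem, ?_⟩
  intro x₁ hx₁ x₂ hx₂ hseg
  obtain ⟨p, q, hp, hq, hpq, hx⟩ := hseg
  have hxe : ∀ e, p * x₁ e + q * x₂ e = u e := by
    intro e
    have := congrFun hx e
    simpa using this
  have hzero : ∀ e, u e = 0 → x₁ e = u e := by
    intro e he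
    have h1 := hxe e
    have h3 := hx₁.1 e
    have h4 := hx₂.1 e
    rw [he] at h1 ⊢
    have h5 : p * x₁ e ≤ 0 := by
      have := mul_nonneg hq.le h4
      push_cast at h1
      linarith
    have h6 : x₁ e ≤ 0 := by
      by_contra h7
      push Not at h7
      have := mul_pos hp h7
      linarith
    push_cast
    linarith
  have htight : ∀ T : Finset α, ∑ e ∈ T, u e = rankSum M₁ M₂ T →
      ∑ e ∈ T, (x₁ e - u e) = 0 := by
    intro T hT
    have h1 := hx₁.2 T
    have h3 := hx₂.2 T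
    have h4 : p * ∑ e ∈ T, x₁ e + q * ∑ e ∈ T, x₂ e = (rankSum M₁ M₂ T : ℝ) := by
      rw [Finset.mul_sum, Finset.mul_sum, ← Finset.sum_add_distrib, ← hT]
      push_cast
      exact Finset.sum_congr rfl (fun e _ => hxe e)
    have h5 : (∑ e ∈ T, (u e : ℝ)) = (rankSum M₁ M₂ T : ℝ) := by
      rw [← hT]; push_cast; rfl
    rw [Finset.sum_sub_distrib, h5]
    have h6 : p * ∑ e ∈ T, x₁ e ≤ p * (rankSum M₁ M₂ T : ℝ) := mul_le_mul_of_nonneg_left h1 hp.le
    have h7 : q * ∑ e ∈ T, x₂ e ≤ q * (rankSum M₁ M₂ T : ℝ) := mul_le_mul_of_nonneg_left h3 hq.le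
    have h8 : p * (rankSum M₁ M₂ T : ℝ) + q * (rankSum M₁ M₂ T : ℝ) = (rankSum M₁ M₂ T : ℝ) := by
      rw [← add_mul, hpq, one_mul]
    have h9 : p * ((rankSum M₁ M₂ T : ℝ) - ∑ e ∈ T, x₁ e) = 0 := by
      have : p * ((rankSum M₁ M₂ T : ℝ) - ∑ e ∈ T, x₁ e) =
        p * (rankSum M₁ M₂ T : ℝ) - p * ∑ e ∈ T, x₁ e := by ring
      linarith
    rcases mul_eq_zero.1 h9 with h | h
    · exact absurd h hp.ne'
    · linarith
  by_contra hne
  have hex : ∃ e, x₁ e ≠ u e := by
    by_contra h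
    push Not at h
    exact hne (funext h)
  obtain ⟨e₀, he₀⟩ := hex
  -- a smallest tight set meeting the difference
  obtain ⟨T₀, he₀T, hT₀⟩ := hu.saturated (a := e₀) (fun h => he₀ (hzero e₀ h))
  obtain ⟨T, ⟨hT, a, haT, ha⟩, hmin⟩ := Set.exists_min_image
    {T : Finset α | ∑ e ∈ T, u e = rankSum M₁ M₂ T ∧ ∃ a ∈ T, x₁ a ≠ u a} Finset.card
    (Set.toFinite _) ⟨T₀, hT₀, e₀, he₀T, he₀⟩
  have hbex : ∃ b ∈ T, b ≠ a ∧ x₁ b ≠ u b := by
    by_contra h
    push Not at h
    have h3 := htight T hT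
    rw [Finset.sum_eq_single a (fun b hb hba => by rw [h b hb hba, sub_self])
      (fun h => absurd haT h)] at h3
    exact ha (sub_eq_zero.1 h3)
  obtain ⟨b, hbT, hba, hb⟩ := hbex
  have hsep : ∀ c d, c ∈ T → d ∈ T → x₁ c ≠ u c → ∀ T' : Finset α, c ∈ T' →
      ∑ e ∈ T', u e = rankSum M₁ M₂ T' → d ∈ T' := by
    intro c d hcT hdT hc T' hcT' hT'
    by_contra hd
    have h3 := tight_inter hu.1.2.1 hT hT'
    have h4 := hmin (T ∩ T') ⟨h3, c, Finset.mem_inter.2 ⟨hcT, hcT'⟩, hc⟩
    have h5 : (T ∩ T').card < T.card := by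
      apply Finset.card_lt_card
      rw [Finset.ssubset_iff_of_subset Finset.inter_subset_left]
      exact ⟨d, hdT, fun h => hd (Finset.mem_inter.1 h).2⟩
    omega
  have hone : ∀ c d, c ≠ d → c ∈ T → d ∈ T → x₁ c ≠ u c → u c = 1 := by
    intro c d hcd hcT hdT hc
    have h3 : u c ≠ 0 := fun h => hc (hzero c h)
    have h4 := hu.1.1 c
    have h5 : u c ≠ 2 := by
      intro h
      have h6 : ∑ e ∈ ({c} : Finset α), u e = rankSum M₁ M₂ {c} := by
        have h7 := hu.1.2.1 {c}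
        have h8 := rank_le_two M₁ M₂ c
        rw [Finset.sum_singleton] at h7 ⊢
        omega
      have h9 := hsep c d hcT hdT hc {c} (Finset.mem_singleton_self c) h6
      exact hcd (Finset.mem_singleton.1 h9).symm
    omega
  have ha1 : u a = 1 := hone a b hba.symm haT hbT ha
  have hb1 : u b = 1 := hone b a hba hbT haT hb
  have hP := hu.1.2.1.move hba.symm ha1 hb1 (fun T' h h' => hsep a b haT hbT ha T' h h')
  have hQ := hu.1.2.1.move hba hb1 ha1 (fun T' h h' => hsep b a hbT haT hb T' h h')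
  obtain ⟨P₁, P₂, hdP⟩ := exists_dec (by
    intro e
    have := hu.1.1 e
    show (if e = a then 2 else if e = b then 0 else u e) ≤ 2
    split_ifs <;> omega) hP
  obtain ⟨Q₁, Q₂, hdQ⟩ := exists_dec (by
    intro e
    have := hu.1.1 e
    show (if e = b then 2 else if e = a then 0 else u e) ≤ 2
    split_ifs <;> omega) hQ
  have havg : ∀ e, (if e = a then 2 else if e = b then 0 else u e) +
      (if e = b then 2 else if e = a then 0 else u e) = 2 * u e := by
    intro e
    by_cases hea : e = a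
    · subst hea
      simp [hba.symm, ha1]
    · by_cases heb : e = b
      · subst heb
        simp [hba, hb1]
      · simp [hea, heb]
        omega
  obtain ⟨G, hG, hD, i1, i2, i3, i4⟩ := mix h₁ h₂ hdP hdQ (fun e => by
    show Even ((if e = a then 2 else if e = b then 0 else u e) +
      (if e = b then 2 else if e = a then 0 else u e))
    rw [havg e]
    exact even_two_mul _)
  set Δ := symmDiff P₁ Q₁ with hΔ
  have hmem1 : ∀ e, e ∈ Δ ↔ ((e ∈ P₁ ∧ e ∉ Q₁) ∨ (e ∈ Q₁ ∧ e ∉ P₁)) := fun e => mem_symmDiff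
  have hmem2 : ∀ e, e ∈ Δ ↔ ((e ∈ P₂ ∧ e ∉ Q₂) ∨ (e ∈ Q₂ ∧ e ∉ P₂)) := by
    intro e
    rw [hD]
    exact mem_symmDiff
  -- the two crossed pairs decompose u
  have hcross : ∀ G₁ G₂ : Set α, G₁ ⊆ Δ → G₂ ⊆ Δ → (∀ e ∈ Δ, (e ∈ G₁ ↔ e ∉ G₂)) →
      ∀ e, u e = ind ((P₁ ∩ Q₁) ∪ G₁) e + ind ((P₂ ∩ Q₂) ∪ G₂) e := by
    intro G₁ G₂ hG₁ hG₂ hG12 e
    have a0 := havg e
    have a1 : _ = ind P₁ e + ind P₂ e := hdP.2.2 e
    have a2 : _ = ind Q₁ e + ind Q₂ e := hdQ.2.2 e
    simp only at a1 a2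
    rw [a1, a2] at a0
    by_cases hed : e ∈ Δ
    · have n1 : e ∉ P₁ ∩ Q₁ := by
        rintro ⟨h1, h2⟩
        rcases (hmem1 e).1 hed with h | h
        · exact h.2 h2
        · exact h.2 h1
      have n2 : e ∉ P₂ ∩ Q₂ := by
        rintro ⟨h1, h2⟩
        rcases (hmem2 e).1 hed with h | h
        · exact h.2 h2
        · exact h.2 h1
      have s1 : ind P₁ e + ind Q₁ e = 1 := by
        rcases (hmem1 e).1 hed with h | h
        · rw [ind_pos h.1, ind_neg h.2]
        · rw [ind_pos h.1, ind_neg h.2]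
      have s2 : ind P₂ e + ind Q₂ e = 1 := by
        rcases (hmem2 e).1 hed with h | h
        · rw [ind_pos h.1, ind_neg h.2]
        · rw [ind_pos h.1, ind_neg h.2]
      have s3 : u e = 1 := by omega
      rw [s3]
      by_cases hg : e ∈ G₁
      · have hg2 : e ∉ G₂ := (hG12 e hed).1 hg
        rw [ind_right _ hg, ind_neg]
        rintro (h | h)
        · exact n2 h
        · exact hg2 h
      · have hg2 : e ∈ G₂ := by
          by_contra h
          exact hg ((hG12 e hed).2 h)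
        rw [ind_right (P₂ ∩ Q₂) hg2, ind_neg]
        rintro (h | h)
        · exact n1 h
        · exact hg h
    · have c1 : (e ∈ P₁ ↔ e ∈ Q₁) := by
        have := hmem1 e
        tauto
      have c2 : (e ∈ P₂ ↔ e ∈ Q₂) := by
        have := hmem2 e
        tauto
      have m1 : e ∈ (P₁ ∩ Q₁) ∪ G₁ ↔ e ∈ P₁ := by
        constructor
        · rintro (h | h)
          · exact h.1
          · exact absurd (hG₁ h) hed
        · intro h
          exact Or.inl ⟨h, c1.1 h⟩
      have m2 : e ∈ (P₂ ∩ Q₂) ∪ G₂ ↔ e ∈ P₂ := by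
        constructor
        · rintro (h | h)
          · exact h.1
          · exact absurd (hG₂ h) hed
        · intro h
          exact Or.inl ⟨h, c2.1 h⟩
      have q1 : ind ((P₁ ∩ Q₁) ∪ G₁) e = ind P₁ e := by
        unfold ind
        simp only [m1]
      have q2 : ind ((P₂ ∩ Q₂) ∪ G₂) e = ind P₂ e := by
        unfold ind
        simp only [m2]
      have q3 : ind Q₁ e = ind P₁ e := by
        unfold ind
        simp only [c1]
      have q4 : ind Q₂ e = ind P₂ e := by
        unfold ind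
        simp only [c2]
      rw [q1, q2]
      omega
  have hX : Dec M₁ M₂ u ((P₁ ∩ Q₁) ∪ G) ((P₂ ∩ Q₂) ∪ (Δ \ G)) :=
    ⟨i1, i4, hcross G (Δ \ G) hG sdiff_subset (fun e he => by
      constructor
      · intro h h'; exact h'.2 h
      · intro h
        by_contra h'
        exact h ⟨he, h'⟩)⟩
  have hY : Dec M₁ M₂ u ((P₁ ∩ Q₁) ∪ (Δ \ G)) ((P₂ ∩ Q₂) ∪ G) :=
    ⟨i2, i3, hcross (Δ \ G) G sdiff_subset hG (fun e he => by
      constructor
      · intro h; exact h.2
      · intro h; exact ⟨he, h⟩)⟩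
  obtain ⟨B₁, B₂, hB⟩ := exists_dec (M₁ := M₁) (M₂ := M₂) (u := fun e => 2 - u e)
    (fun e => by show 2 - u e ≤ 2; omega) hu.1.2.2
  have k1 := hu.same h₁ h₂ hX hB ha1
  have k2 := hu.same h₁ h₂ hY hB ha1
  -- a lies in the symmetric difference
  have haP : a ∈ P₁ ∧ a ∉ Q₁ := by
    have a1 := hdP.2.2 a
    have a2 := hdQ.2.2 a
    simp only [if_true, if_neg hba.symm] at a1 a2
    rcases ind_cases P₁ a with h | h <;> rcases ind_cases P₂ a with h' | h' <;>
      rcases ind_cases Q₁ a with h3 | h3 <;> rcases ind_cases Q₂ a with h4 | h4 <;>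
      first | omega | exact ⟨h.1, h3.1⟩
  have haD : a ∈ Δ := (hmem1 a).2 (Or.inl haP)
  have hn : a ∉ P₁ ∩ Q₁ := fun h => haP.2 h.2
  by_cases hg : a ∈ G
  · have := k2.2 (k1.1 (Or.inr hg))
    rcases this with h | h
    · exact hn h
    · exact h.2 hg
  · have := k1.2 (k2.1 (Or.inr ⟨haD, hg⟩))
    rcases this with h | h
    · exact hn h
    · exact hg h

/-- Optimal vectors exist when the all-ones vector lies in the polymatroid. -/
theorem exists_opt (h : ∀ S : Finset α, S.card ≤ rankSum M₁ M₂ S) : ∃ u, Opt M₁ M₂ u := by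
  classical
  have hg : Good M₁ M₂ (fun _ => 1) := by
    refine ⟨fun _ => by norm_num, fun S => ?_, fun S => ?_⟩
    · simpa using h S
    · simpa using h S
  have hex : ∃ m, ∃ u, Good M₁ M₂ u ∧ odd u = m := ⟨_, _, hg, rfl⟩
  obtain ⟨u, hu, hm⟩ := Nat.find_spec hex
  refine ⟨u, hu, fun u' hu' => ?_⟩
  rw [hm]
  exact Nat.find_min' hex ⟨u', hu', rfl⟩

end Pool.Agent.Lib.P901b45
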