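import Pool.Agent.Lib.P901b45.Union

/-
Complementary vertices for the sum of the rank function of a direct sum of
uniform matroids and the rank function of an arbitrary matroid.
-/

namespace Pool.Agent.Lib.P901b45.Part

open Set

variable {α ι : Type*} [DecidableEq ι] [Fintype ι]

/-- The rank function of the direct sum of the uniform matroids of rank `k i` on
the fibres of `c`. -/
def partRk (c : α → ι) (k : ι → ℕ) (S : Finset α) : ℕ :=
  ∑ i, min (S.filter fun e => c e = i).card (k i)

/-- The sum of the rank functions. -/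
noncomputable def partSum (c : α → ι) (k : ι → ℕ) (M : Matroid α) (S : Finset α) : ℕ :=
  partRk c k S + rk M S

variable {c : α → ι} {k : ι → ℕ} {M : Matroid α}

theorem card_eq (c : α → ι) (S : Finset α) :
    S.card = ∑ i, (S.filter fun e => c e = i).card :=
  Finset.card_eq_sum_card_fiberwise fun _ _ => Finset.mem_coe.2 (Finset.mem_univ _)

theorem partRk_le_card (S : Finset α) : partRk c k S ≤ S.card := by
  rw [card_eq c S]
  exact Finset.sum_le_sum fun i _ => min_le_left _ _

theorem partRk_mono {S T : Finset α} (h : S ⊆ T) : partRk c k S ≤ partRk c k T :=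
  Finset.sum_le_sum fun _ _ => min_le_min_right _ (Finset.card_le_card (Finset.filter_subset_filter _ h))

theorem partRk_submod [DecidableEq α] (S T : Finset α) :
    partRk c k (S ∪ T) + partRk c k (S ∩ T) ≤ partRk c k S + partRk c k T := by
  unfold partRk
  rw [← Finset.sum_add_distrib, ← Finset.sum_add_distrib]
  refine Finset.sum_le_sum fun i _ => ?_
  rw [Finset.filter_union, Finset.filter_inter_distrib]
  have h1 := Finset.card_union_add_card_inter (S.filter fun e => c e = i) (T.filter fun e => c e = i)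
  have h2 := Finset.card_le_card (Finset.inter_subset_left (s₁ := S.filter fun e => c e = i)
    (s₂ := T.filter fun e => c e = i))
  have h3 := Finset.card_le_card (Finset.inter_subset_right (s₁ := S.filter fun e => c e = i)
    (s₂ := T.filter fun e => c e = i))
  omega

/-- the independent sets of the first matroid -/
def Ok (c : α → ι) (k : ι → ℕ) (S : Finset α) : Prop :=
  ∀ i, (S.filter fun e => c e = i).card ≤ k i

theorem Ok.partRk {S : Finset α} (h : Ok c k S) : partRk c k S = S.card := by
  rw [card_eq c S]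
  exact Finset.sum_congr rfl fun i _ => min_eq_left (h i)

theorem ok_of_partRk {S : Finset α} (h : partRk c k S = S.card) : Ok c k S := by
  intro i
  rw [card_eq c S] at h
  unfold Part.partRk at h
  have h1 := (Finset.sum_eq_sum_iff_of_le (s := Finset.univ)
    (f := fun i => min (S.filter fun e => c e = i).card (k i))
    (g := fun i => (S.filter fun e => c e = i).card) fun i _ => min_le_left _ _).1 h i
    (Finset.mem_univ i)
  have h2 : min (S.filter fun e => c e = i).card (k i) = (S.filter fun e => c e = i).card := h1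
  omega

theorem Ok.subset {S T : Finset α} (h : Ok c k T) (hST : S ⊆ T) : Ok c k S := fun i =>
  (Finset.card_le_card (Finset.filter_subset_filter _ hST)).trans (h i)

variable [Fintype α] [DecidableEq α]

/-- the pairs: `S` independent in the first matroid, the complement of `S` independent in `M` -/
def Adm (c : α → ι) (k : ι → ℕ) (M : Matroid α) (S : Finset α) : Prop :=
  Ok c k S ∧ M.Indep ((Sᶜ : Finset α) : Set α)

theorem exists_adm (h : ∀ S : Finset α, S.card ≤ partSum c k M S) : ∃ S, Adm c k M S := by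
  obtain ⟨R₁, R₂, hd, hu, h1, h2⟩ := cov_abstract (partRk c k) (rk M) partRk_le_card
    (rk_le_card M) partRk_submod (rk_submod M) Finset.univ ∅ ∅ (by simp) (by simp)
    (fun S _ => by simpa [partSum] using h S)
  rw [Finset.empty_union] at h1 h2
  refine ⟨R₁, ok_of_partRk h1, ?_⟩
  have h3 : R₁ᶜ = R₂ := by
    ext x
    rw [Finset.mem_compl]
    constructor
    · intro hx
      have : x ∈ R₁ ∪ R₂ := by rw [hu]; exact Finset.mem_univ x
      rcases Finset.mem_union.1 this with h | h
      · exact absurd h hx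
      · exact h
    · intro hx hx'
      exact Finset.disjoint_left.1 hd hx' hx
  rw [h3]
  exact (indep_iff_rk _ _).2 h2

/-- a pair of maximum distance -/
def MaxPair (c : α → ι) (k : ι → ℕ) (M : Matroid α) (S T : Finset α) : Prop :=
  Adm c k M S ∧ Adm c k M T ∧ ∀ S' T' : Finset α, Adm c k M S' → Adm c k M T' →
    (symmDiff S' T').card ≤ (symmDiff S T).card

theorem MaxPair.symm {S T : Finset α} (h : MaxPair c k M S T) : MaxPair c k M T S :=
  ⟨h.2.1, h.1, fun S' T' hS hT => by rw [symmDiff_comm T S]; exact h.2.2 S' T' hS hT⟩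

theorem exists_maxPair (h : ∀ S : Finset α, S.card ≤ partSum c k M S) :
    ∃ S T, MaxPair c k M S T := by
  classical
  obtain ⟨S₀, hS₀⟩ := exists_adm h
  have hne : ((Finset.univ : Finset (Finset α × Finset α)).filter
      fun p => Adm c k M p.1 ∧ Adm c k M p.2).Nonempty :=
    ⟨(S₀, S₀), Finset.mem_filter.2 ⟨Finset.mem_univ _, hS₀, hS₀⟩⟩
  obtain ⟨p, hp, hmax⟩ := Finset.exists_max_image _ (fun p => (symmDiff p.1 p.2).card) hne
  have hp' := (Finset.mem_filter.1 hp).2
  exact ⟨p.1, p.2, hp'.1, hp'.2, fun S' T' hS hT =>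
    hmax (S', T') (Finset.mem_filter.2 ⟨Finset.mem_univ _, hS, hT⟩)⟩

theorem MaxPair.contra {S T T' : Finset α} (h : MaxPair c k M S T) (hT : Adm c k M T')
    (hsub : symmDiff S T ⊆ symmDiff S T') {x : α} (hx : x ∈ symmDiff S T')
    (hx' : x ∉ symmDiff S T) : False := by
  have h1 := h.2.2 S T' h.1 hT
  have h2 : (symmDiff S T).card < (symmDiff S T').card :=
    Finset.card_lt_card ⟨hsub, fun h3 => hx' (h3 hx)⟩
  omega

/-- elements of `S ∩ T` are spanned by the complement of `T` -/
theorem MaxPair.mem_closure {S T : Finset α} (hE : M.E = Set.univ) (h : MaxPair c k M S T) {x : α}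
    (hx : x ∈ S) (hx' : x ∈ T) : x ∈ M.closure ((Tᶜ : Finset α) : Set α) := by
  by_contra hcon
  have hTc := h.2.1.2
  have hxT : x ∉ ((Tᶜ : Finset α) : Set α) := by
    rw [Finset.mem_coe, Finset.mem_compl]
    exact fun h => h hx'
  have h1 : M.Indep (insert x ((Tᶜ : Finset α) : Set α)) := by
    rw [hTc.insert_indep_iff_of_notMem hxT]
    exact ⟨by rw [hE]; exact Set.mem_univ x, hcon⟩
  have h2 : ((T.erase x)ᶜ : Finset α) = insert x Tᶜ := by
    rw [Finset.compl_erase]
  refine h.contra (T' := T.erase x) ⟨h.2.1.1.subset (Finset.erase_subset _ _), ?_⟩ ?_ (x := x) ?_ ?_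
  · rw [h2, Finset.coe_insert]
    exact h1
  · intro y hy
    rw [Finset.mem_symmDiff] at hy ⊢
    rw [Finset.mem_erase]
    rcases hy with ⟨h3, h4⟩ | ⟨h3, h4⟩
    · exact Or.inl ⟨h3, fun h5 => h4 h5.2⟩
    · exact Or.inr ⟨⟨fun h5 => h4 (h5 ▸ hx), h3⟩, h4⟩
  · rw [Finset.mem_symmDiff, Finset.mem_erase]
    exact Or.inl ⟨hx, fun h5 => h5.1 rfl⟩
  · rw [Finset.mem_symmDiff]
    rintro (⟨_, h4⟩ | ⟨_, h4⟩)
    · exact h4 hx'
    · exact h4 hx

/-- classes with an element outside `S ∪ T` are full -/
theorem MaxPair.full {S T : Finset α} (h : MaxPair c k M S T) {x : α} (hx : x ∉ S) (hx' : x ∉ T) :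
    k (c x) ≤ (S.filter fun e => c e = c x).card := by
  by_contra hcon
  push Not at hcon
  have hs := h.symm
  refine hs.contra (T' := insert x S) ⟨?_, ?_⟩ ?_ (x := x) ?_ ?_
  · intro i
    by_cases hi : c x = i
    · rw [Finset.filter_insert, if_pos hi]
      refine (Finset.card_insert_le _ _).trans ?_
      rw [← hi]
      exact hcon
    · rw [Finset.filter_insert, if_neg hi]
      exact h.1.1 i
  · refine h.1.2.subset ?_
    intro y hy
    rw [Finset.mem_coe, Finset.mem_compl] at hy ⊢
    exact fun h3 => hy (Finset.mem_insert_of_mem h3)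
  · intro y hy
    rw [Finset.mem_symmDiff] at hy ⊢
    rcases hy with ⟨h3, h4⟩ | ⟨h3, h4⟩
    · refine Or.inl ⟨h3, fun h5 => ?_⟩
      rcases Finset.mem_insert.1 h5 with h6 | h6
      · exact hx' (h6 ▸ h3)
      · exact h4 h6
    · exact Or.inr ⟨Finset.mem_insert_of_mem h3, h4⟩
  · rw [Finset.mem_symmDiff]
    exact Or.inr ⟨Finset.mem_insert_self _ _, hx'⟩
  · rw [Finset.mem_symmDiff]
    rintro (⟨h3, _⟩ | ⟨h3, _⟩)
    · exact hx' h3
    · exact hx h3

/-- the relation between the classes -/
def Rl (c : α → ι) (M : Matroid α) (S T : Finset α) (j i : ι) : Prop :=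
  ∃ a d : α, a ∈ S ∧ a ∈ T ∧ d ∉ S ∧ d ∉ T ∧ c a = i ∧ c d = j ∧
    d ∈ M.fundCircuit a ((Tᶜ : Finset α) : Set α)

/-- simultaneous exchange -/
theorem exch {S T : Finset α} (hE : M.E = Set.univ) (h : MaxPair c k M S T) (J : Finset ι)
    (a d : ι → α) (h1 : ∀ i ∈ J, a i ∈ S ∧ a i ∈ T) (h2 : ∀ i ∈ J, d i ∉ S ∧ d i ∉ T)
    (h3 : ∀ i ∈ J, d i ∈ M.fundCircuit (a i) ((Tᶜ : Finset α) : Set α))
    (h4 : ∀ i ∈ J, ∀ j ∈ J, i ≠ j → d j ∉ M.fundCircuit (a i) ((Tᶜ : Finset α) : Set α)) :
    M.Indep (((((T \ J.image a) ∪ J.image d)ᶜ : Finset α)) : Set α) := by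
  classical
  have key : ∀ K : Finset ι, K ⊆ J →
      M.Indep (((((T \ K.image a) ∪ K.image d)ᶜ : Finset α)) : Set α) := by
    intro K
    induction K using Finset.induction_on with
    | empty =>
      intro _
      simpa using h.2.1.2
    | insert i K hiK ih =>
      intro hK
      have hiJ : i ∈ J := hK (Finset.mem_insert_self i K)
      have hKJ : K ⊆ J := fun x hx => hK (Finset.mem_insert_of_mem hx)
      have hW := ih hKJ
      obtain ⟨haS, haT⟩ := h1 i hiJ
      obtain ⟨hdS, hdT⟩ := h2 i hiJ
      have hcl := h.mem_closure hE haS haT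
      have haTc : a i ∉ ((Tᶜ : Finset α) : Set α) := by
        rw [Finset.mem_coe, Finset.mem_compl]
        exact fun h => h haT
      have hC := h.2.1.2.fundCircuit_isCircuit hcl haTc
      have hsub : M.fundCircuit (a i) ((Tᶜ : Finset α) : Set α) ⊆
          insert (a i) (((((T \ K.image a) ∪ K.image d)ᶜ : Finset α)) : Set α) := by
        intro x hx
        rcases M.fundCircuit_subset_insert _ _ hx with h5 | h5
        · exact Or.inl h5
        · refine Or.inr ?_
          rw [Finset.mem_coe, Finset.mem_compl] at h5 ⊢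
          intro h6
          rcases Finset.mem_union.1 h6 with h7 | h7
          · exact h5 (Finset.mem_sdiff.1 h7).1
          · obtain ⟨j, hj, rfl⟩ := Finset.mem_image.1 h7
            exact h4 i hiJ j (hKJ hj) (fun h8 => hiK (h8 ▸ hj)) hx
      have heq := hC.eq_fundCircuit_of_subset hW hsub
      have hd : d i ∈ M.fundCircuit (a i) (((((T \ K.image a) ∪ K.image d)ᶜ : Finset α)) : Set α) := by
        rw [← heq]
        exact h3 i hiJ
      by_cases haW : a i ∈ (((((T \ K.image a) ∪ K.image d)ᶜ : Finset α)) : Set α)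
      · exfalso
        rw [M.fundCircuit_eq_of_mem haW] at hd
        have h5 : d i = a i := hd
        exact hdS (h5 ▸ haS)
      · have hcl' : a i ∈ M.closure (((((T \ K.image a) ∪ K.image d)ᶜ : Finset α)) : Set α) := by
          rw [hW.mem_closure_iff_of_notMem haW]
          exact hC.dep.superset hsub (by rw [hE]; exact Set.subset_univ _)
        have h5 := (hW.mem_fundCircuit_iff hcl' haW).1 hd
        refine h5.subset ?_
        intro x hx
        rw [Finset.mem_coe, Finset.mem_compl, Finset.mem_union, not_or, Finset.mem_sdiff,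
          Finset.image_insert, Finset.image_insert] at hx
        obtain ⟨h6, h7⟩ := hx
        have h7' : x ≠ d i ∧ x ∉ K.image d := by
          rw [Finset.mem_insert, not_or] at h7
          exact h7
        refine ⟨?_, fun h8 => h7'.1 h8⟩
        by_cases hxa : x = a i
        · exact Or.inl hxa
        · refine Or.inr ?_
          rw [Finset.mem_coe, Finset.mem_compl, Finset.mem_union, not_or, Finset.mem_sdiff]
          refine ⟨fun h8 => h6 ⟨h8.1, fun h9 => ?_⟩, h7'.2⟩
          rcases Finset.mem_insert.1 h9 with h10 | h10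
          · exact hxa h10
          · exact h8.2 h10
  exact key J (Finset.Subset.refl J)

/-- there is no finite nonempty set of classes which is closed under predecessors -/
theorem no_cycle {S T : Finset α} (hE : M.E = Set.univ) (h : MaxPair c k M S T) (J : Finset ι)
    (hJ : J.Nonempty) (hR : ∀ i ∈ J, ∃ j ∈ J, Rl c M S T j i) : False := by
  classical
  -- a minimal such set
  obtain ⟨J, hJ', hmin⟩ := Finset.exists_min_image
    ((Finset.univ : Finset (Finset ι)).filter
      fun J => J.Nonempty ∧ ∀ i ∈ J, ∃ j ∈ J, Rl c M S T j i) Finset.card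
    ⟨J, Finset.mem_filter.2 ⟨Finset.mem_univ _, hJ, hR⟩⟩
  obtain ⟨hJ, hR⟩ := (Finset.mem_filter.1 hJ').2
  have hbij : ∀ π : ι → ι, (∀ i ∈ J, π i ∈ J ∧ Rl c M S T (π i) i) →
      J.image π = J ∧ Set.InjOn π (J : Set ι) := by
    intro π hπ
    have h1 : J.image π ⊆ J := by
      intro x hx
      obtain ⟨i, hi, rfl⟩ := Finset.mem_image.1 hx
      exact (hπ i hi).1
    have h2 : J.card ≤ (J.image π).card := hmin _ (Finset.mem_filter.2 ⟨Finset.mem_univ _,
      hJ.image π, fun i hi => ⟨π i, Finset.mem_image_of_mem π (h1 hi), (hπ i (h1 hi)).2⟩⟩)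
    have h3 : J.image π = J := Finset.eq_of_subset_of_card_le h1 h2
    refine ⟨h3, ?_⟩
    rw [← Finset.card_image_iff, h3]
  choose! π hπJ hπR using hR
  obtain ⟨hπim, hπinj⟩ := hbij π fun i hi => ⟨hπJ i hi, hπR i hi⟩
  -- uniqueness of the predecessor
  have huniq : ∀ i ∈ J, ∀ j ∈ J, Rl c M S T j i → j = π i := by
    intro i hi j hj hji
    obtain ⟨_, hinj⟩ := hbij (Function.update π i j) (by
      intro x hx
      by_cases hxi : x = i
      · rw [hxi, Function.update_self]
        exact ⟨hj, hji⟩
      · rw [Function.update_of_ne hxi]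
        exact ⟨hπJ x hx, hπR x hx⟩)
    have h1 : j ∈ J.image π := by rw [hπim]; exact hj
    obtain ⟨i', hi', hi''⟩ := Finset.mem_image.1 h1
    by_cases h2 : i' = i
    · rw [← hi'', h2]
    · exfalso
      have h3 : Function.update π i j i' = Function.update π i j i := by
        rw [Function.update_of_ne h2, Function.update_self, hi'']
      exact h2 (hinj (Finset.mem_coe.2 hi') (Finset.mem_coe.2 hi) h3)
  -- the elements
  have hne : Nonempty α := by
    obtain ⟨i, hi⟩ := hJ
    obtain ⟨a, _⟩ := hπR i hi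
    exact ⟨a⟩
  have hex : ∀ i ∈ J, ∃ a d : α, a ∈ S ∧ a ∈ T ∧ d ∉ S ∧ d ∉ T ∧ c a = i ∧ c d = π i ∧
    d ∈ M.fundCircuit a ((Tᶜ : Finset α) : Set α) := hπR
  choose! a d haS haT hdS hdT hac hdc had using hex
  have hind := exch hE h J a d (fun i hi => ⟨haS i hi, haT i hi⟩) (fun i hi => ⟨hdS i hi, hdT i hi⟩)
    had (by
      intro i hi j hj hij hmem
      have h1 : Rl c M S T (π j) i :=
        ⟨a i, d j, haS i hi, haT i hi, hdS j hj, hdT j hj, hac i hi, hdc j hj, hmem⟩
      have h2 := huniq i hi (π j) (hπJ j hj) h1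
      exact hij (hπinj (Finset.mem_coe.2 hi) (Finset.mem_coe.2 hj) h2.symm))
  obtain ⟨i₀, hi₀⟩ := hJ
  refine h.contra (T' := (T \ J.image a) ∪ J.image d) ⟨?_, hind⟩ ?_ (x := a i₀) ?_ ?_
  · -- class counts
    intro j
    refine le_trans ?_ (h.2.1.1 j)
    rw [Finset.filter_union]
    refine (Finset.card_union_le _ _).trans ?_
    have e1 : ((T \ J.image a).filter fun e => c e = j) =
        (T.filter fun e => c e = j) \ ((J.image a).filter fun e => c e = j) := by
      ext x
      simp only [Finset.mem_filter, Finset.mem_sdiff]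
      tauto
    have e2 : ((J.image a).filter fun e => c e = j) ⊆ T.filter fun e => c e = j := by
      intro x hx
      obtain ⟨hx1, hx2⟩ := Finset.mem_filter.1 hx
      obtain ⟨i, hi, rfl⟩ := Finset.mem_image.1 hx1
      exact Finset.mem_filter.2 ⟨haT i hi, hx2⟩
    rw [e1, Finset.card_sdiff_of_subset e2]
    have e3 : ((J.image d).filter fun e => c e = j).card ≤
        ((J.image a).filter fun e => c e = j).card := by
      by_cases hemp : ((J.image d).filter fun e => c e = j) = ∅
      · rw [hemp]
        exact Nat.zero_le _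
      · obtain ⟨x, hx⟩ := Finset.nonempty_iff_ne_empty.2 hemp
        obtain ⟨hx1, hx2⟩ := Finset.mem_filter.1 hx
        obtain ⟨i, hi, rfl⟩ := Finset.mem_image.1 hx1
        have hji : π i = j := by rw [← hdc i hi]; exact hx2
        have hjJ : j ∈ J := hji ▸ hπJ i hi
        have h5 : ((J.image d).filter fun e => c e = j) ⊆ {d i} := by
          intro y hy
          obtain ⟨hy1, hy2⟩ := Finset.mem_filter.1 hy
          obtain ⟨i', hi', rfl⟩ := Finset.mem_image.1 hy1
          have h6 : π i' = π i := by rw [hji, ← hdc i' hi']; exact hy2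
          have h7 := hπinj (Finset.mem_coe.2 hi') (Finset.mem_coe.2 hi) h6
          rw [h7]
          exact Finset.mem_singleton_self _
        have h8 : a j ∈ ((J.image a).filter fun e => c e = j) :=
          Finset.mem_filter.2 ⟨Finset.mem_image_of_mem a hjJ, hac j hjJ⟩
        have h9 := Finset.card_le_card h5
        rw [Finset.card_singleton] at h9
        have h10 : 0 < ((J.image a).filter fun e => c e = j).card := Finset.card_pos.2 ⟨_, h8⟩
        omega
    have e4 := Finset.card_le_card e2
    omega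
  · intro y hy
    rw [Finset.mem_symmDiff] at hy ⊢
    rcases hy with ⟨h3, h4⟩ | ⟨h3, h4⟩
    · refine Or.inl ⟨h3, fun h5 => ?_⟩
      rcases Finset.mem_union.1 h5 with h6 | h6
      · exact h4 (Finset.mem_sdiff.1 h6).1
      · obtain ⟨i, hi, rfl⟩ := Finset.mem_image.1 h6
        exact hdS i hi h3
    · refine Or.inr ⟨Finset.mem_union_left _ (Finset.mem_sdiff.2 ⟨h3, fun h5 => ?_⟩), h4⟩
      obtain ⟨i, hi, rfl⟩ := Finset.mem_image.1 h5
      exact h4 (haS i hi)
  · rw [Finset.mem_symmDiff]
    refine Or.inl ⟨haS i₀ hi₀, fun h5 => ?_⟩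
    rcases Finset.mem_union.1 h5 with h6 | h6
    · exact (Finset.mem_sdiff.1 h6).2 (Finset.mem_image_of_mem a hi₀)
    · obtain ⟨i, hi, h7⟩ := Finset.mem_image.1 h6
      exact hdS i hi (h7 ▸ haS i₀ hi₀)
  · rw [Finset.mem_symmDiff]
    rintro (⟨_, h4⟩ | ⟨_, h4⟩)
    · exact h4 (haT i₀ hi₀)
    · exact h4 (haS i₀ hi₀)

/-- the transitive closure of the relation is irreflexive -/
theorem irrefl {S T : Finset α} (hE : M.E = Set.univ) (h : MaxPair c k M S T) (i : ι) :
    ¬ Relation.TransGen (Rl c M S T) i i := by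
  classical
  intro hi
  refine no_cycle hE h (Finset.univ.filter fun j => Relation.TransGen (Rl c M S T) i j ∧
    Relation.TransGen (Rl c M S T) j i) ⟨i, Finset.mem_filter.2 ⟨Finset.mem_univ _, hi, hi⟩⟩ ?_
  intro j hj
  obtain ⟨h1, h2⟩ := (Finset.mem_filter.1 hj).2
  rcases Relation.TransGen.tail'_iff.1 h1 with ⟨m, h3, h4⟩
  refine ⟨m, Finset.mem_filter.2 ⟨Finset.mem_univ _, ?_, ?_⟩, h4⟩
  · rcases Relation.reflTransGen_iff_eq_or_transGen.1 h3 with h5 | h5
    · rw [h5]
      exact hi
    · exact h5
  · exact Relation.TransGen.head h4 h2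

/-- the candidate vertex -/
noncomputable def vx (S T : Finset α) (e : α) : ℝ := (if e ∈ S then 1 else 0) + (if e ∈ T then 0 else 1)

theorem sum_vx (S T X : Finset α) : ∑ e ∈ X, vx S T e = ((X ∩ S).card : ℝ) + ((X \ T).card : ℝ) := by
  unfold vx
  rw [Finset.sum_add_distrib]
  congr 1
  · rw [Finset.sum_ite_mem, Finset.sum_const, nsmul_eq_mul, mul_one]
  · have h1 : ∀ e ∈ X, (if e ∈ T then (0 : ℝ) else 1) = if e ∈ X \ T then 1 else 0 := by
      intro e he
      by_cases h : e ∈ T
      · rw [if_pos h, if_neg fun h' => (Finset.mem_sdiff.1 h').2 h]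
      · rw [if_neg h, if_pos (Finset.mem_sdiff.2 ⟨he, h⟩)]
    rw [Finset.sum_congr rfl h1, Finset.sum_ite_mem, Finset.sum_const, nsmul_eq_mul, mul_one]
    congr 2
    ext x
    simp only [Finset.mem_inter, Finset.mem_sdiff]
    tauto

theorem rk_sdiff {T : Finset α} (hT : M.Indep ((Tᶜ : Finset α) : Set α)) (X : Finset α) :
    rk M (X \ T) = (X \ T).card := by
  rw [← indep_iff_rk]
  refine hT.subset ?_
  intro x hx
  rw [Finset.mem_coe] at hx
  rw [Finset.mem_coe, Finset.mem_compl]
  exact (Finset.mem_sdiff.1 hx).2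

theorem vx_mem {S T : Finset α} (hS : Ok c k S) (hT : M.Indep ((Tᶜ : Finset α) : Set α)) :
    vx S T ∈ Poly (partSum c k M) := by
  refine ⟨fun e => ?_, fun X => ?_⟩
  · unfold vx
    positivity
  · rw [sum_vx]
    have h1 : (X ∩ S).card ≤ partRk c k X := by
      rw [← (hS.subset (Finset.inter_subset_right (s₁ := X))).partRk]
      exact partRk_mono Finset.inter_subset_left
    have h2 : (X \ T).card ≤ rk M X := by
      rw [← rk_sdiff hT X]
      exact rk_mono M Finset.sdiff_subset
    have h3 : (X ∩ S).card + (X \ T).card ≤ partSum c k M X := Nat.add_le_add h1 h2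
    exact_mod_cast h3

/-- a criterion for tightness -/
theorem tight {S T X : Finset α} (hS : Ok c k S) (hT : M.Indep ((Tᶜ : Finset α) : Set α))
    (h1 : ∀ e ∈ X, e ∉ S → (∀ s ∈ S, c s = c e → s ∈ X) ∧
      k (c e) ≤ (S.filter fun s => c s = c e).card)
    (h2 : ∀ e ∈ X, e ∈ T → e ∈ M.closure ((X \ T : Finset α) : Set α)) :
    ∑ e ∈ X, vx S T e = (partSum c k M X : ℝ) := by
  rw [sum_vx]
  have e1 : partRk c k X = (X ∩ S).card := by
    rw [← (hS.subset (Finset.inter_subset_right (s₁ := X))).partRk]
    unfold partRk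
    refine Finset.sum_congr rfl fun i _ => ?_
    by_cases h : (X.filter fun e => c e = i) ⊆ S
    · have h3 : (X.filter fun e => c e = i) = (X ∩ S).filter fun e => c e = i := by
        ext x
        simp only [Finset.mem_filter, Finset.mem_inter]
        constructor
        · intro hx
          exact ⟨⟨hx.1, h (Finset.mem_filter.2 hx)⟩, hx.2⟩
        · intro hx
          exact ⟨hx.1.1, hx.2⟩
      rw [h3]
    · obtain ⟨e, he, heS⟩ := Finset.not_subset.1 h
      obtain ⟨heX, rfl⟩ := Finset.mem_filter.1 he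
      obtain ⟨h3, h4⟩ := h1 e heX heS
      have h5 : ((X ∩ S).filter fun s => c s = c e) = S.filter fun s => c s = c e := by
        ext x
        simp only [Finset.mem_filter, Finset.mem_inter]
        constructor
        · intro hx
          exact ⟨hx.1.2, hx.2⟩
        · intro hx
          exact ⟨⟨h3 x hx.1 hx.2, hx.1⟩, hx.2⟩
      have h6 : ((X ∩ S).filter fun s => c s = c e).card ≤ (X.filter fun s => c s = c e).card :=
        Finset.card_le_card (Finset.filter_subset_filter _ Finset.inter_subset_left)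
      rw [h5] at h6 ⊢
      have h7 := hS (c e)
      omega
  have e2 : rk M X = (X \ T).card := by
    rw [← rk_sdiff hT X]
    apply le_antisymm
    · have h3 : (X : Set α) ⊆ M.closure ((X \ T : Finset α) : Set α) := by
        intro e he
        by_cases heT : e ∈ T
        · exact h2 e he heT
        · refine M.subset_closure _ ?_ ?_
          · exact (hT.subset (by
              intro x hx
              rw [Finset.mem_coe] at hx
              rw [Finset.mem_coe, Finset.mem_compl]
              exact (Finset.mem_sdiff.1 hx).2)).subset_ground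
          · rw [Finset.mem_coe]
            exact Finset.mem_sdiff.2 ⟨he, heT⟩
      have h4 := M.eRk_mono h3
      rw [Matroid.eRk_closure_eq, ← rk_cast, ← rk_cast] at h4
      exact_mod_cast h4
    · exact rk_mono M Finset.sdiff_subset
  unfold partSum
  rw [e1, e2]
  push_cast
  ring

/-- The vector of a pair of maximum distance is a vertex. -/
theorem extreme {S T : Finset α} (hE : M.E = Set.univ) (h : MaxPair c k M S T) :
    vx S T ∈ Set.extremePoints ℝ (Poly (partSum c k M)) := by
  classical
  have hmem := vx_mem h.1.1 h.2.1.2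
  rw [mem_extremePoints_iff_left]
  refine ⟨hmem, ?_⟩
  intro x₁ hx₁ x₂ hx₂ hseg
  obtain ⟨p, q, hp, hq, hpq, hx⟩ := hseg
  have hxe : ∀ e, p * x₁ e + q * x₂ e = vx S T e := by
    intro e
    have := congrFun hx e
    simpa using this
  have htight : ∀ X : Finset α, ∑ e ∈ X, vx S T e = (partSum c k M X : ℝ) →
      ∑ e ∈ X, x₁ e = ∑ e ∈ X, vx S T e := by
    intro X hX
    have h1 : p * ∑ e ∈ X, x₁ e + q * ∑ e ∈ X, x₂ e = ∑ e ∈ X, vx S T e := by
      rw [Finset.mul_sum, Finset.mul_sum, ← Finset.sum_add_distrib]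
      exact Finset.sum_congr rfl fun e _ => hxe e
    have h2 := hx₁.2 X
    have h3 := hx₂.2 X
    rw [← hX] at h2 h3
    apply le_antisymm h2
    by_contra hcon
    push Not at hcon
    have h4 : p * ∑ e ∈ X, x₁ e < p * ∑ e ∈ X, vx S T e := mul_lt_mul_of_pos_left hcon hp
    have h5 : q * ∑ e ∈ X, x₂ e ≤ q * ∑ e ∈ X, vx S T e := mul_le_mul_of_nonneg_left h3 hq.le
    have h6 : p * ∑ e ∈ X, vx S T e + q * ∑ e ∈ X, vx S T e = ∑ e ∈ X, vx S T e := by
      rw [← add_mul, hpq, one_mul]
    linarith
  -- two tight sets which differ in one element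
  have hstep : ∀ (X : Finset α) (e : α), e ∉ X → ∑ y ∈ X, vx S T y = (partSum c k M X : ℝ) →
      ∑ y ∈ insert e X, vx S T y = (partSum c k M (insert e X) : ℝ) → x₁ e = vx S T e := by
    intro X e he h1 h2
    have h3 := htight X h1
    have h4 := htight _ h2
    rw [Finset.sum_insert he, Finset.sum_insert he] at h4
    linarith
  -- the spanned elements
  have hspan : ∀ (X : Finset α) (e : α), e ∈ S → e ∈ T →
      (∀ y, y ∈ S → y ∉ T → y ∈ X) →
      (∀ y, y ∉ S → y ∉ T → Rl c M S T (c y) (c e) → y ∈ X) →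
      e ∈ M.closure ((X \ T : Finset α) : Set α) := by
    intro X e heS heT h1 h2
    have heTc : e ∉ ((Tᶜ : Finset α) : Set α) := by
      rw [Finset.mem_coe, Finset.mem_compl]
      exact fun h => h heT
    have hC := h.2.1.2.fundCircuit_isCircuit (h.mem_closure hE heS heT) heTc
    have h3 := hC.mem_closure_sdiff_singleton_of_mem (M.mem_fundCircuit e _)
    refine M.closure_subset_closure ?_ h3
    rintro y ⟨hy, hy'⟩
    rw [Finset.mem_coe, Finset.mem_sdiff]
    rcases M.fundCircuit_subset_insert _ _ hy with h4 | h4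
    · exact absurd h4 hy'
    · have h5 : y ∉ T := by
        rw [Finset.mem_coe, Finset.mem_compl] at h4
        exact h4
      refine ⟨?_, h5⟩
      by_cases h6 : y ∈ S
      · exact h1 y h6 h5
      · exact h2 y h6 h5 ⟨e, y, heS, heT, h6, h5, rfl, rfl, hy⟩
  funext e
  -- the lower set of the class of `e`
  obtain ⟨X, hXdef⟩ : ∃ X : Finset α, X = Finset.univ.filter (fun y => (y ∈ S ∧ y ∉ T) ∨
    ((y ∈ S ↔ y ∈ T) ∧ Relation.TransGen (Rl c M S T) (c y) (c e))) := ⟨_, rfl⟩
  have hX : ∀ y, y ∈ X ↔ (y ∈ S ∧ y ∉ T) ∨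
      ((y ∈ S ↔ y ∈ T) ∧ Relation.TransGen (Rl c M S T) (c y) (c e)) := by
    intro y
    rw [hXdef, Finset.mem_filter]
    exact ⟨fun h => h.2, fun h => ⟨Finset.mem_univ _, h⟩⟩
  have hXe : (e ∈ S ↔ e ∈ T) → e ∉ X := by
    intro he he'
    rcases (hX e).1 he' with h1 | h1
    · exact h1.2 (he.1 h1.1)
    · exact irrefl hE h (c e) h1.2
  have hXS : ∀ s ∈ S, Relation.TransGen (Rl c M S T) (c s) (c e) → s ∈ X := by
    intro s hs hs'
    rw [hX]
    by_cases hsT : s ∈ T
    · exact Or.inr ⟨⟨fun _ => hsT, fun _ => hs⟩, hs'⟩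
    · exact Or.inl ⟨hs, hsT⟩
  -- tightness of `X` together with elements of the class of `e`
  have htX : ∀ Z : Finset α, (∀ z ∈ Z, (z ∈ S ↔ z ∈ T) ∧ c z = c e) →
      (∀ z ∈ Z, z ∉ S → ∀ s ∈ S, s ∈ T → c s = c e → s ∈ Z) →
      ∑ y ∈ X ∪ Z, vx S T y = (partSum c k M (X ∪ Z) : ℝ) := by
    intro Z hZ hZ'
    refine tight h.1.1 h.2.1.2 ?_ ?_
    · intro y hy hyS
      rcases Finset.mem_union.1 hy with h1 | h1
      · rcases (hX y).1 h1 with h2 | h2
        · exact absurd h2.1 hyS
        · have hyT : y ∉ T := fun h3 => hyS (h2.1.2 h3)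
          refine ⟨fun s hs hsc => Finset.mem_union_left _ (hXS s hs ?_), h.full hyS hyT⟩
          rw [hsc]
          exact h2.2
      · obtain ⟨h2, h3⟩ := hZ y h1
        have hyT : y ∉ T := fun h3 => hyS (h2.2 h3)
        refine ⟨fun s hs hsc => ?_, h.full hyS hyT⟩
        by_cases hsT : s ∈ T
        · exact Finset.mem_union_right _ (hZ' y h1 hyS s hs hsT (hsc.trans h3))
        · exact Finset.mem_union_left _ ((hX s).2 (Or.inl ⟨hs, hsT⟩))
    · intro y hy hyT
      have hyS : y ∈ S := by
        rcases Finset.mem_union.1 hy with h1 | h1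
        · rcases (hX y).1 h1 with h2 | h2
          · exact h2.1
          · exact h2.1.2 hyT
        · exact (hZ y h1).1.2 hyT
      have hyc : c y = c e ∨ Relation.TransGen (Rl c M S T) (c y) (c e) := by
        rcases Finset.mem_union.1 hy with h1 | h1
        · rcases (hX y).1 h1 with h2 | h2
          · exact absurd hyT h2.2
          · exact Or.inr h2.2
        · exact Or.inl (hZ y h1).2
      refine hspan _ y hyS hyT (fun z hz hz' => Finset.mem_union_left _ ((hX z).2
        (Or.inl ⟨hz, hz'⟩))) (fun z hz hz' hR => Finset.mem_union_left _ ((hX z).2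
        (Or.inr ⟨⟨fun h1 => absurd h1 hz, fun h1 => absurd h1 hz'⟩, ?_⟩)))
      rcases hyc with h1 | h1
      · rw [← h1]
        exact Relation.TransGen.single hR
      · exact Relation.TransGen.head hR h1
  by_cases heS : e ∈ S
  · by_cases heT : e ∈ T
    · refine hstep X e (hXe ⟨fun _ => heT, fun _ => heS⟩) ?_ ?_
      · have h1 := htX ∅ (by simp) (by simp)
        rwa [Finset.union_empty] at h1
      · have h1 := htX {e} (by
          intro z hz
          rw [Finset.mem_singleton] at hz
          rw [hz]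
          exact ⟨⟨fun _ => heT, fun _ => heS⟩, rfl⟩) (by
          intro z hz hzS
          rw [Finset.mem_singleton] at hz
          exact absurd heS (hz ▸ hzS))
        rwa [Finset.union_comm, ← Finset.insert_eq] at h1
    · -- the value two
      have h1 : vx S T e = 2 := by
        unfold vx
        rw [if_pos heS, if_neg heT]
        norm_num
      have h2 : ∀ x ∈ Poly (partSum c k M), x e ≤ 2 := by
        intro x hx
        have h3 := hx.2 {e}
        rw [Finset.sum_singleton] at h3
        have h4 : partSum c k M {e} ≤ 2 := by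
          unfold partSum
          have h5 := partRk_le_card (c := c) (k := k) {e}
          have h6 := rk_le_card M {e}
          rw [Finset.card_singleton] at h5 h6
          omega
        have h5 : (partSum c k M {e} : ℝ) ≤ 2 := by exact_mod_cast h4
        linarith
      have h3 := h2 x₁ hx₁
      have h4 := h2 x₂ hx₂
      have h5 := hxe e
      rw [h1] at h5 ⊢
      apply le_antisymm h3
      by_contra hcon
      push Not at hcon
      have h6 : p * x₁ e < p * 2 := mul_lt_mul_of_pos_left hcon hp
      have h7 : q * x₂ e ≤ q * 2 := mul_le_mul_of_nonneg_left h4 hq.le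
      have h8 : p * 2 + q * 2 = 2 := by rw [← add_mul, hpq, one_mul]
      linarith
  · by_cases heT : e ∈ T
    · -- the value zero
      have h1 : vx S T e = 0 := by
        unfold vx
        rw [if_neg heS, if_pos heT]
        norm_num
      have h3 := hx₁.1 e
      have h4 := hx₂.1 e
      have h5 := hxe e
      rw [h1] at h5 ⊢
      apply le_antisymm _ h3
      by_contra hcon
      push Not at hcon
      have h6 : 0 < p * x₁ e := mul_pos hp hcon
      have h7 : 0 ≤ q * x₂ e := mul_nonneg hq.le h4
      linarith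
    · have hZ : ∀ z ∈ Finset.univ.filter (fun z => z ∈ S ∧ z ∈ T ∧ c z = c e),
          (z ∈ S ↔ z ∈ T) ∧ c z = c e := by
        intro z hz
        obtain ⟨h1, h2, h3⟩ := (Finset.mem_filter.1 hz).2
        exact ⟨⟨fun _ => h2, fun _ => h1⟩, h3⟩
      refine hstep (X ∪ Finset.univ.filter (fun z => z ∈ S ∧ z ∈ T ∧ c z = c e)) e ?_ ?_ ?_
      · intro h1
        rcases Finset.mem_union.1 h1 with h2 | h2
        · exact hXe ⟨fun h3 => absurd h3 heS, fun h3 => absurd h3 heT⟩ h2
        · exact heS (Finset.mem_filter.1 h2).2.1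
      · exact htX _ hZ (fun z hz hzS => absurd (Finset.mem_filter.1 hz).2.1 hzS)
      · have h1 := htX (insert e (Finset.univ.filter (fun z => z ∈ S ∧ z ∈ T ∧ c z = c e))) (by
          intro z hz
          rcases Finset.mem_insert.1 hz with h2 | h2
          · rw [h2]
            exact ⟨⟨fun h3 => absurd h3 heS, fun h3 => absurd h3 heT⟩, rfl⟩
          · exact hZ z h2) (by
          intro z _ _ s hs hsT hsc
          exact Finset.mem_insert_of_mem (Finset.mem_filter.2 ⟨Finset.mem_univ _, hs, hsT, hsc⟩))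
        rwa [Finset.union_insert] at h1

theorem two_sub_vx (S T : Finset α) : (fun e => 2 - vx S T e) = vx T S := by
  funext e
  unfold vx
  by_cases h1 : e ∈ S <;> by_cases h2 : e ∈ T <;> simp [h1, h2] <;> norm_num

end Pool.Agent.Lib.P901b45.Part
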