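import Pool.Agent.Lib.P901b45.Union

/-
Complementary vertices for the sum of the rank functions of a matroid and of a
quotient of it: partitions of the ground set into three parts `T`, `O`, `J`
with `T`, `J` independent in the quotient and `T ∪ O`, `J ∪ O` independent in
the matroid.
-/

namespace Pool.Agent.Lib.P901b45.Quot

open Pool.Agent.Lib.P901b45

variable {α : Type*} [DecidableEq α] {M N : Matroid α}

/-- `T` and `J` are independent in `N`, `T ∪ O` and `J ∪ O` are independent in `M`,
and the three sets partition the ground set. -/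
def Adm [Fintype α] (M N : Matroid α) (T O J : Finset α) : Prop :=
  (∀ e, (e ∈ T ∧ e ∉ O ∧ e ∉ J) ∨ (e ∉ T ∧ e ∈ O ∧ e ∉ J) ∨ (e ∉ T ∧ e ∉ O ∧ e ∈ J)) ∧
  N.Indep (T : Set α) ∧ N.Indep (J : Set α) ∧
  M.Indep ((T ∪ O : Finset α) : Set α) ∧ M.Indep ((J ∪ O : Finset α) : Set α)

theorem Adm.symm [Fintype α] {T O J : Finset α} (h : Adm M N T O J) : Adm M N J O T := by
  refine ⟨fun e => ?_, h.2.2.1, h.2.1, h.2.2.2.2, h.2.2.2.1⟩
  have := h.1 e
  tauto

/-- One element: the rank increment in a quotient is at most the rank increment in the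
matroid. -/
theorem step (hM : M.E = Set.univ) (hq : ∀ X : Set α, M.closure X ⊆ N.closure X) (e : α)
    (S : Finset α) : rk N (insert e S) + rk M S ≤ rk M (insert e S) + rk N S := by
  by_cases h : e ∈ M.closure (S : Set α)
  · have h1 : e ∈ N.closure (S : Set α) := hq _ h
    have h2 : N.eRk ((insert e S : Finset α) : Set α) = N.eRk (S : Set α) := by
      rw [Finset.coe_insert, ← Matroid.eRk_insert_closure_eq, Set.insert_eq_of_mem h1,
        Matroid.eRk_closure_eq]
    have h3 : rk N (insert e S) = rk N S := by
      unfold rk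
      rw [h2]
    have h4 : rk M S ≤ rk M (insert e S) := rk_mono M (Finset.subset_insert e S)
    omega
  · have h1 : M.eRk ((insert e S : Finset α) : Set α) = M.eRk (S : Set α) + 1 := by
      rw [Finset.coe_insert]
      exact Matroid.eRk_insert_eq_add_one ⟨by rw [hM]; exact Set.mem_univ e, h⟩
    have h2 : N.eRk ((insert e S : Finset α) : Set α) ≤ N.eRk (S : Set α) + 1 := by
      rw [Finset.coe_insert]
      exact N.eRk_insert_le_add_one e _
    rw [← rk_cast, ← rk_cast] at h1 h2
    have h3 : rk M (insert e S) = rk M S + 1 := by exact_mod_cast h1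
    have h4 : rk N (insert e S) ≤ rk N S + 1 := by exact_mod_cast h2
    omega

/-- The difference of the rank functions of a matroid and of a quotient is monotone. -/
theorem mono (hM : M.E = Set.univ) (hq : ∀ X : Set α, M.closure X ⊆ N.closure X)
    (S T : Finset α) (hST : S ⊆ T) : rk N T + rk M S ≤ rk M T + rk N S := by
  have key : ∀ U : Finset α, rk N (U ∪ S) + rk M S ≤ rk M (U ∪ S) + rk N S := by
    intro U
    induction U using Finset.induction_on with
    | empty => rw [Finset.empty_union]; omega
    | insert e U _ ih =>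
      have := step hM hq e (U ∪ S)
      rw [Finset.insert_union]
      omega
  have h := key T
  rw [Finset.union_eq_left.2 hST] at h
  exact h

/-- Two applications of the matroid union theorem. -/
theorem exists_adm [Fintype α]
    (hq : ∀ S T : Finset α, S ⊆ T → rk N T + rk M S ≤ rk M T + rk N S)
    (hcard : ∀ S : Finset α, S.card ≤ rankSum M N S) : ∃ T O J, Adm M N T O J := by
  obtain ⟨B, J, hd, hu, hB, hJ⟩ := cov M N Finset.univ ∅ ∅ (by simp) (by simp) (by
    intro S _
    have := hcard S
    unfold rankSum at this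
    simpa using this)
  rw [Finset.empty_union] at hB hJ
  have hB' := (indep_iff_rk M B).1 hB
  have hJ' := (indep_iff_rk N J).1 hJ
  obtain ⟨T, O, hd', hu', hT, hO⟩ := cov N M B ∅ J (by simp) hd.symm (by
    intro S hS
    have h1 := hq S (J ∪ S) Finset.subset_union_right
    have h2 : rk M S = S.card := (indep_iff_rk M S).1 (hB.subset (by exact_mod_cast hS))
    have h3 : rk N J ≤ rk N (J ∪ S) := rk_mono N Finset.subset_union_left
    rw [Finset.empty_union, Finset.card_empty]
    omega)
  rw [Finset.empty_union] at hT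
  refine ⟨T, O, J, fun e => ?_, hT, hJ, by rw [hu']; exact hB, hO⟩
  have he : e ∈ B ∪ J := by rw [hu]; exact Finset.mem_univ e
  have h1 : e ∈ T → e ∉ O := fun h h' => Finset.disjoint_left.1 hd' h h'
  have h2 : e ∈ B → e ∉ J := fun h h' => Finset.disjoint_left.1 hd h h'
  have h3 : e ∈ B ↔ e ∈ T ∨ e ∈ O := by rw [← hu', Finset.mem_union]
  rw [Finset.mem_union] at he
  tauto

/-- An admissible partition with `O` as small as possible. -/
theorem exists_min [Fintype α] (h : ∃ T O J, Adm M N T O J) :
    ∃ T O J, Adm M N T O J ∧ ∀ T' O' J', Adm M N T' O' J' → O.card ≤ O'.card := by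
  classical
  have h1 : ∃ n, ∃ T O J, Adm M N T O J ∧ O.card = n := by
    obtain ⟨T, O, J, h⟩ := h
    exact ⟨_, T, O, J, h, rfl⟩
  obtain ⟨T, O, J, h2, h3⟩ := Nat.find_spec h1
  refine ⟨T, O, J, h2, fun T' O' J' h' => ?_⟩
  rw [h3]
  exact Nat.find_min' h1 ⟨T', O', J', h', rfl⟩

/-- If `O` is as small as possible then `O` is spanned by `T` in the quotient. -/
theorem spanned [Fintype α] {T O J : Finset α} (h : Adm M N T O J)
    (hmin : ∀ T' O' J', Adm M N T' O' J' → O.card ≤ O'.card) {o : α} (ho : o ∈ O) :
    rk N (insert o T) ≤ T.card := by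
  by_contra hcon
  have hoT : o ∉ T := by
    have := h.1 o
    tauto
  have hoJ : o ∉ J := by
    have := h.1 o
    tauto
  have h1 : N.Indep ((insert o T : Finset α) : Set α) := by
    rw [indep_iff_rk, Finset.card_insert_of_notMem hoT]
    have := rk_le_card N (insert o T)
    rw [Finset.card_insert_of_notMem hoT] at this
    omega
  have h2 : Adm M N (insert o T) (O.erase o) J := by
    refine ⟨fun e => ?_, h1, h.2.2.1, ?_, ?_⟩
    · have h3 := h.1 e
      rw [Finset.mem_insert, Finset.mem_erase]
      by_cases heo : e = o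
      · subst heo
        exact Or.inl ⟨Or.inl rfl, fun h => h.1 rfl, hoJ⟩
      · simp only [heo, false_or, ne_eq, not_false_eq_true, true_and]
        exact h3
    · refine h.2.2.2.1.subset ?_
      intro e he
      rw [Finset.mem_coe, Finset.mem_union, Finset.mem_insert, Finset.mem_erase] at he
      rw [Finset.mem_coe, Finset.mem_union]
      rcases he with (rfl | he) | he
      · exact Or.inr ho
      · exact Or.inl he
      · exact Or.inr he.2
    · refine h.2.2.2.2.subset ?_
      intro e he
      rw [Finset.mem_coe, Finset.mem_union, Finset.mem_erase] at he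
      rw [Finset.mem_coe, Finset.mem_union]
      rcases he with he | he
      · exact Or.inl he
      · exact Or.inr he.2
  have h3 := hmin _ _ _ h2
  have h4 := Finset.card_erase_lt_of_mem ho
  omega

/-- the candidate vertex: `2` on `T`, `1` on `O`, `0` elsewhere (`T`, `O` disjoint) -/
noncomputable def vx (T O : Finset α) (e : α) : ℝ :=
  (if e ∈ T then 1 else 0) + (if e ∈ T ∪ O then 1 else 0)

theorem sum_vx (T O X : Finset α) :
    ∑ e ∈ X, vx T O e = ((X ∩ T).card : ℝ) + ((X ∩ (T ∪ O)).card : ℝ) := by
  unfold vx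
  rw [Finset.sum_add_distrib, Finset.sum_ite_mem, Finset.sum_ite_mem, Finset.sum_const,
    Finset.sum_const, nsmul_eq_mul, nsmul_eq_mul, mul_one, mul_one]

theorem vx_mem [Fintype α] {T O J : Finset α} (h : Adm M N T O J) :
    vx T O ∈ Poly (rankSum M N) := by
  refine ⟨fun e => ?_, fun X => ?_⟩
  · unfold vx
    positivity
  · rw [sum_vx]
    have h1 : (X ∩ T).card ≤ rk N X := by
      rw [← (indep_iff_rk N (X ∩ T)).1 (h.2.1.subset (by
        rw [Finset.coe_subset]; exact Finset.inter_subset_right))]
      exact rk_mono N Finset.inter_subset_left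
    have h2 : (X ∩ (T ∪ O)).card ≤ rk M X := by
      rw [← (indep_iff_rk M (X ∩ (T ∪ O))).1 (h.2.2.2.1.subset (by
        rw [Finset.coe_subset]; exact Finset.inter_subset_right))]
      exact rk_mono M Finset.inter_subset_left
    have h3 : (X ∩ T).card + (X ∩ (T ∪ O)).card ≤ rankSum M N X := by
      unfold rankSum
      omega
    exact_mod_cast h3

theorem two_sub_vx [Fintype α] {T O J : Finset α} (h : Adm M N T O J) :
    (fun e => 2 - vx T O e) = vx J O := by
  funext e
  unfold vx
  simp only [Finset.mem_union]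
  rcases h.1 e with h1 | h1 | h1
  · simp [h1.1, h1.2.1, h1.2.2]; norm_num
  · simp [h1.1, h1.2.1, h1.2.2]; norm_num
  · simp [h1.1, h1.2.1, h1.2.2]; norm_num

/-- The candidate is a vertex if `O` is spanned by `T` in the quotient. -/
theorem extreme [Fintype α] {T O J : Finset α} (h : Adm M N T O J)
    (hO : ∀ o ∈ O, rk N (insert o T) ≤ T.card) :
    vx T O ∈ Set.extremePoints ℝ (Poly (rankSum M N)) := by
  have hmem := vx_mem h
  rw [mem_extremePoints_iff_left]
  refine ⟨hmem, ?_⟩
  intro x₁ hx₁ x₂ hx₂ hseg
  obtain ⟨p, q, hp, hq, hpq, hx⟩ := hseg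
  have hxe : ∀ e, p * x₁ e + q * x₂ e = vx T O e := by
    intro e
    have := congrFun hx e
    simpa using this
  have hle2 : ∀ x ∈ Poly (rankSum M N), ∀ e, x e ≤ 2 := by
    intro x hx e
    have h1 := hx.2 {e}
    rw [Finset.sum_singleton] at h1
    have h2 : rankSum M N {e} ≤ 2 := by
      unfold rankSum
      have h3 := rk_le_card M {e}
      have h4 := rk_le_card N {e}
      rw [Finset.card_singleton] at h3 h4
      omega
    have h5 : (rankSum M N {e} : ℝ) ≤ 2 := by exact_mod_cast h2
    linarith
  have hT : ∀ e ∈ T, x₁ e = 2 ∧ x₂ e = 2 := by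
    intro e he
    have h1 := hle2 x₁ hx₁ e
    have h2 := hle2 x₂ hx₂ e
    have h3 := hxe e
    have h4 : vx T O e = 2 := by
      unfold vx
      rw [if_pos he, if_pos (Finset.mem_union_left _ he)]
      norm_num
    rw [h4] at h3
    constructor
    · nlinarith
    · nlinarith
  funext e
  rcases h.1 e with h1 | h1 | h1
  · have h4 : vx T O e = 2 := by
      unfold vx
      rw [if_pos h1.1, if_pos (Finset.mem_union_left _ h1.1)]
      norm_num
    rw [h4]
    exact (hT e h1.1).1
  · have h4 : vx T O e = 1 := by
      unfold vx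
      rw [if_neg h1.1, if_pos (Finset.mem_union_right _ h1.2.1)]
      norm_num
    have h5 : rankSum M N (insert e T) ≤ 2 * T.card + 1 := by
      unfold rankSum
      have h6 := hO e h1.2.1
      have h7 := rk_le_card M (insert e T)
      rw [Finset.card_insert_of_notMem h1.1] at h7
      omega
    have h6 : ∀ x ∈ Poly (rankSum M N), (∀ t ∈ T, x t = 2) → x e ≤ 1 := by
      intro x hx ht
      have h7 := hx.2 (insert e T)
      rw [Finset.sum_insert h1.1, Finset.sum_congr rfl ht, Finset.sum_const, nsmul_eq_mul] at h7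
      have h8 : (rankSum M N (insert e T) : ℝ) ≤ 2 * (T.card : ℝ) + 1 := by exact_mod_cast h5
      linarith
    have h7 := h6 x₁ hx₁ fun t ht => (hT t ht).1
    have h8 := h6 x₂ hx₂ fun t ht => (hT t ht).2
    have h9 := hxe e
    rw [h4] at h9 ⊢
    nlinarith
  · have h4 : vx T O e = 0 := by
      unfold vx
      rw [if_neg h1.1, if_neg (fun h' => by
        rw [Finset.mem_union] at h'
        tauto)]
      norm_num
    have h5 := hx₁.1 e
    have h6 := hx₂.1 e
    have h7 := hxe e
    rw [h4] at h7 ⊢
    have h8 := mul_nonneg hq.le h6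
    have h9 := mul_nonneg hp.le h5
    have h10 : p * x₁ e = 0 := by linarith
    rcases mul_eq_zero.1 h10 with h11 | h11
    · exact absurd h11 hp.ne'
    · exact h11

end Pool.Agent.Lib.P901b45.Quot
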