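import Pool.Agent.Lib.P901b45.Core

/-
The splitting of Davies and McDiarmid for independent sets (not necessarily
bases) of two strongly base orderable matroids.
-/

namespace Pool.Agent.Lib.P901b45

open Set

section Invol

variable {β : Type*}

/-- Two involutions (fixed points allowed) have a common proper two-colouring. -/
theorem exists_common_colouring (s t : β → β) (hs : ∀ x, s (s x) = x) (ht : ∀ x, t (t x) = x) :
    ∃ D : Set β, ∀ x, (s x ≠ x → (s x ∈ D ↔ x ∉ D)) ∧ (t x ≠ x → (t x ∈ D ↔ x ∉ D)) := by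
  classical
  let f : (β → β) → β × Bool → β × Bool := fun u p =>
    if u p.1 = p.1 then (p.1, !p.2) else (u p.1, p.2)
  have hf : ∀ u : β → β, (∀ x, u (u x) = x) → (∀ p, f u (f u p) = p) ∧ ∀ p, f u p ≠ p := by
    intro u hu
    constructor
    · rintro ⟨x, b⟩
      by_cases h : u x = x
      · simp [f, h]
      · have h' : ¬ (x = u x) := fun e => h e.symm
        simp [f, h, h', hu]
    · rintro ⟨x, b⟩ he
      by_cases h : u x = x
      · simp [f, h] at he
      · simp [f, h] at he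
  obtain ⟨D, hD⟩ := exists_common_transversal (f s) (f t) (hf s hs).1 (hf t ht).1
    (hf s hs).2 (hf t ht).2
  refine ⟨{x | (x, true) ∈ D}, fun x => ⟨fun h => ?_, fun h => ?_⟩⟩
  · have := (hD (x, true)).1
    simpa [f, h] using this
  · have := (hD (x, true)).2
    simpa [f, h] using this

end Invol

variable {α : Type*}

/-- The exchange involution of two independent sets of a strongly base
orderable matroid. -/
theorem exchange_partial {M : Matroid α} (hM : StronglyBaseOrderable M) {I J : Set α}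
    (hI : M.Indep I) (hJ : M.Indep J) :
    ∃ s : α → α, (∀ x ∈ symmDiff I J, s x ∈ symmDiff I J ∧ s (s x) = x) ∧
      ∀ G ⊆ symmDiff I J, (∀ x ∈ symmDiff I J, s x ≠ x → (s x ∈ G ↔ x ∉ G)) →
        M.Indep ((I ∩ J) ∪ G) := by
  classical
  obtain ⟨P, hP, hIP⟩ := hI.exists_isBase_superset
  obtain ⟨Q, hQ, hJQ⟩ := hJ.exists_isBase_superset
  obtain ⟨s₀, hs₀, hG₀⟩ := exchange_involution hM hP hQ
  let s : α → α := fun x => if x ∈ symmDiff P Q ∧ s₀ x ∈ symmDiff I J then s₀ x else x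
  have hpos : ∀ x, x ∈ symmDiff P Q → s₀ x ∈ symmDiff I J → s x = s₀ x := by
    intro x h1 h2
    simp only [s, if_pos (And.intro h1 h2)]
  have hneg : ∀ x, ¬ (x ∈ symmDiff P Q ∧ s₀ x ∈ symmDiff I J) → s x = x := by
    intro x h
    simp only [s, if_neg h]
  refine ⟨s, ?_, ?_⟩
  · intro x hx
    by_cases h : x ∈ symmDiff P Q ∧ s₀ x ∈ symmDiff I J
    · have h1 := hpos x h.1 h.2
      have h2 := hs₀ x h.1
      rw [h1]
      refine ⟨h.2, ?_⟩
      rw [hpos (s₀ x) h2.1 (by rw [h2.2.1]; exact hx), h2.2.1]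
    · rw [hneg x h, hneg x h]
      exact ⟨hx, rfl⟩
  · intro G hG ht
    let _ : LinearOrder α := IsWellOrder.linearOrder (WellOrderingRel (α := α))
    have hboth : ∀ x ∈ symmDiff P Q, x ∈ G → s₀ x ∉ G := by
      intro x hx hxG hs
      have h1 := hpos x hx (hG hs)
      have h2 := ht x (hG hxG) (by rw [h1]; exact (hs₀ x hx).2.2)
      rw [h1] at h2
      exact (h2.1 hs) hxG
    have hb := hG₀ {x | x ∈ symmDiff P Q ∧ (x ∈ G ∨ (s₀ x ∉ G ∧ x < s₀ x))}
      (fun x hx => hx.1) (by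
        intro x hx
        obtain ⟨h1, h2, h3⟩ := hs₀ x hx
        simp only [mem_ofPred_eq, h1, hx, true_and, h2]
        by_cases hxG : x ∈ G
        · have h4 := hboth x hx hxG
          simp [hxG, h4]
        · by_cases hsG : s₀ x ∈ G
          · simp [hxG, hsG]
          · simp only [hxG, hsG, not_false_eq_true, true_and, false_or]
            constructor
            · intro h; exact not_lt.2 h.le
            · intro h; exact lt_of_le_of_ne (not_lt.1 h) h3)
    apply hb.indep.subset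
    rintro x (⟨h1, h2⟩ | h)
    · left; exact ⟨hIP h1, hJQ h2⟩
    · by_cases hx : x ∈ symmDiff P Q
      · right; exact ⟨hx, Or.inl h⟩
      · left
        rw [mem_symmDiff] at hx
        rcases (mem_symmDiff.1 (hG h)) with ⟨h1, _⟩ | ⟨h1, _⟩
        · refine ⟨hIP h1, ?_⟩
          by_contra h3
          exact hx (Or.inl ⟨hIP h1, h3⟩)
        · refine ⟨?_, hJQ h1⟩
          by_contra h3
          exact hx (Or.inr ⟨hJQ h1, h3⟩)

/-- The common symmetric difference of two pairs of independent sets of two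
strongly base orderable matroids splits into two parts each of which completes
the common elements to independent sets in both matroids. -/
theorem indep_split {M₁ M₂ : Matroid α} (h₁ : StronglyBaseOrderable M₁)
    (h₂ : StronglyBaseOrderable M₂) {P₁ Q₁ P₂ Q₂ : Set α}
    (hP₁ : M₁.Indep P₁) (hQ₁ : M₁.Indep Q₁) (hP₂ : M₂.Indep P₂) (hQ₂ : M₂.Indep Q₂)
    (hD : symmDiff P₁ Q₁ = symmDiff P₂ Q₂) :
    ∃ G ⊆ symmDiff P₁ Q₁,
      M₁.Indep ((P₁ ∩ Q₁) ∪ G) ∧ M₁.Indep ((P₁ ∩ Q₁) ∪ (symmDiff P₁ Q₁ \ G)) ∧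
      M₂.Indep ((P₂ ∩ Q₂) ∪ G) ∧ M₂.Indep ((P₂ ∩ Q₂) ∪ (symmDiff P₁ Q₁ \ G)) := by
  classical
  obtain ⟨s, hs, hsB⟩ := exchange_partial h₁ hP₁ hQ₁
  obtain ⟨t, ht, htB⟩ := exchange_partial h₂ hP₂ hQ₂
  rw [← hD] at ht htB
  set Δ := symmDiff P₁ Q₁ with hΔ
  let s' : Δ → Δ := fun x => ⟨s x.1, (hs x.1 x.2).1⟩
  let t' : Δ → Δ := fun x => ⟨t x.1, (ht x.1 x.2).1⟩
  obtain ⟨D, hDD⟩ := exists_common_colouring s' t'
    (fun x => Subtype.ext (hs x.1 x.2).2) (fun x => Subtype.ext (ht x.1 x.2).2)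
  let G : Set α := {x | ∃ h : x ∈ Δ, (⟨x, h⟩ : Δ) ∈ D}
  have hGs : G ⊆ Δ := fun x hx => hx.1
  have hGm : ∀ x (h : x ∈ Δ), x ∈ G ↔ (⟨x, h⟩ : Δ) ∈ D := fun x h =>
    ⟨fun h' => h'.2, fun h' => ⟨h, h'⟩⟩
  have hsG : ∀ x ∈ Δ, s x ≠ x → (s x ∈ G ↔ x ∉ G) := by
    intro x hx hne
    rw [hGm (s x) (hs x hx).1, hGm x hx]
    exact (hDD ⟨x, hx⟩).1 (fun h => hne (congrArg Subtype.val h))
  have htG : ∀ x ∈ Δ, t x ≠ x → (t x ∈ G ↔ x ∉ G) := by
    intro x hx hne
    rw [hGm (t x) (ht x hx).1, hGm x hx]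
    exact (hDD ⟨x, hx⟩).2 (fun h => hne (congrArg Subtype.val h))
  have hcs : ∀ x ∈ Δ, s x ≠ x → (s x ∈ Δ \ G ↔ x ∉ Δ \ G) := by
    intro x hx hne
    have := hsG x hx hne
    have h1 := (hs x hx).1
    simp only [mem_sdiff, h1, hx, true_and, this]
  have hct : ∀ x ∈ Δ, t x ≠ x → (t x ∈ Δ \ G ↔ x ∉ Δ \ G) := by
    intro x hx hne
    have := htG x hx hne
    have h1 := (ht x hx).1
    simp only [mem_sdiff, h1, hx, true_and, this]
  exact ⟨G, hGs, hsB G hGs hsG, hsB _ sdiff_subset hcs, htB G hGs htG, htB _ sdiff_subset hct⟩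

end Pool.Agent.Lib.P901b45
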